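import Pool.Agent.TH965.Emb3

/-!
# Few values in unlikely sets: a bound by the logarithm of the average degree

Refinement of the closure argument of `Pool.Agent.TH965.Emb`: the edges of the images which go to the
fixed vertices are counted separately.
-/

set_option autoImplicit false
set_option linter.unusedSectionVars false

namespace Pool.Agent.TH644.KD

open Finset
open scoped Classical
open Pool.Agent.TH965.Emb

variable {V W : Type} [Fintype V] [Fintype W]

/-- The edges of `S` which touch `Y'` and have an end outside of `Y`. -/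
noncomputable def bE (S : SimpleGraph V) (Y Y' : Finset V) : Finset (Sym2 V) :=
  (tE S Y').filter (fun e => ∃ v ∈ e, v ∉ Y)

/-- The images of the edges between `Y` and its complement. -/
noncomputable def UimB (S : SimpleGraph V) (Q : Finset (V → W)) (Y : Finset V) : Finset (Sym2 W) :=
  Q.biUnion (fun φ => (bE S Y Y).image (Sym2.map φ))

lemma mem_bE {S : SimpleGraph V} {Y Y' : Finset V} {e : Sym2 V} :
    e ∈ bE S Y Y' ↔ e ∈ tE S Y' ∧ ∃ v ∈ e, v ∉ Y := by simp [bE]

lemma mem_UimB {S : SimpleGraph V} {Q : Finset (V → W)} {Y : Finset V} {e : Sym2 W} :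
    e ∈ UimB S Q Y ↔ ∃ φ ∈ Q, ∃ e' ∈ bE S Y Y, Sym2.map φ e' = e := by simp [UimB]

lemma closure_le' (S : SimpleGraph V) (H : SimpleGraph W) (Y : Finset V) (n : ℕ) (hn : 1 ≤ n)
    (r E : ℝ) (hr0 : 0 ≤ r) (hE : 1 ≤ E) (hrE : r * E ≤ 1)
    (hpc : ∀ Y' ⊆ Y, Y'.Nonempty →
      (n : ℝ) ^ Y'.card * r ^ (tE S Y').card * E ^ (bE S Y Y').card ≤ 1)
    (Q : Finset (V → W)) : (∀ φ ∈ Q, IsEmb S H φ) →
    (∀ φ ∈ Q, ∀ φ' ∈ Q, ∀ v, v ∉ Y → φ v = φ' v) →
    (n : ℝ) ^ (Fim Q Y).card * r ^ (Uim S Q Y).card * E ^ (UimB S Q Y).card ≤ 1 := by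
  have hn' : (1 : ℝ) ≤ n := by exact_mod_cast hn
  have hE0 : 0 < E := by linarith
  induction Q using Finset.induction_on with
  | empty => intro _ _; simp [Fim, Uim, UimB]
  | insert φ Q hφ ih =>
    intro hemb hagree
    have ih' := ih (fun ψ hψ => hemb ψ (Finset.mem_insert_of_mem hψ))
      (fun ψ hψ ψ' hψ' => hagree ψ (Finset.mem_insert_of_mem hψ) ψ' (Finset.mem_insert_of_mem hψ'))
    set Y₁ : Finset V := Y.filter (fun y => φ y ∉ Fim Q Y) with hY₁
    have hY₁Y : Y₁ ⊆ Y := Finset.filter_subset _ _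
    have hinj : Function.Injective (Sym2.map φ) :=
      Sym2.map.injective (hemb φ (Finset.mem_insert_self _ _)).1
    have hF : (Fim (insert φ Q) Y).card ≤ (Fim Q Y).card + Y₁.card := by
      have hsub : Fim (insert φ Q) Y ⊆ Fim Q Y ∪ Y₁.image φ := by
        intro w hw
        rw [mem_Fim] at hw
        obtain ⟨ψ, hψ, y, hy, rfl⟩ := hw
        rw [Finset.mem_union]
        rw [Finset.mem_insert] at hψ
        rcases hψ with rfl | hψ
        · by_cases h : ψ y ∈ Fim Q Y
          · exact Or.inl h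
          · exact Or.inr (Finset.mem_image_of_mem _ (Finset.mem_filter.mpr ⟨hy, h⟩))
        · exact Or.inl (mem_Fim.mpr ⟨ψ, hψ, y, hy, rfl⟩)
      calc _ ≤ (Fim Q Y ∪ Y₁.image φ).card := Finset.card_le_card hsub
        _ ≤ (Fim Q Y).card + (Y₁.image φ).card := Finset.card_union_le _ _
        _ ≤ _ := by gcongr; exact Finset.card_image_le
    -- the new edges
    set U := Uim S Q Y with hU
    set U' := Uim S (insert φ Q) Y with hU'
    set I₁ := (tE S Y₁).image (Sym2.map φ) with hI₁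
    have hdisj : Disjoint U I₁ := by
      rw [Finset.disjoint_left]
      intro e he he'
      rw [hI₁, Finset.mem_image] at he'
      obtain ⟨e₀, he₀, rfl⟩ := he'
      rw [mem_tE] at he₀
      obtain ⟨-, y, hy, hye⟩ := he₀
      rw [hU, mem_Uim] at he
      obtain ⟨φ', hφ', e', he', heq⟩ := he
      have hmem : φ y ∈ Sym2.map φ' e' := by
        rw [heq]; exact Sym2.mem_map.mpr ⟨y, hye, rfl⟩
      rw [Sym2.mem_map] at hmem
      obtain ⟨v, hv, hvy⟩ := hmem
      by_cases hvY : v ∈ Y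
      · have : φ y ∈ Fim Q Y := mem_Fim.mpr ⟨φ', hφ', v, hvY, hvy⟩
        exact (Finset.mem_filter.mp hy).2 this
      · have h1 := hagree φ' (Finset.mem_insert_of_mem hφ') φ (Finset.mem_insert_self _ _) v hvY
        rw [h1] at hvy
        have := (hemb φ (Finset.mem_insert_self _ _)).1 hvy
        exact hvY (this ▸ hY₁Y hy)
    have hsub : U ∪ I₁ ⊆ U' := by
      intro e he
      rw [Finset.mem_union] at he
      rw [hU', mem_Uim]
      rcases he with he | he
      · rw [hU, mem_Uim] at he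
        obtain ⟨φ', hφ', e', he', heq⟩ := he
        exact ⟨φ', Finset.mem_insert_of_mem hφ', e', he', heq⟩
      · rw [hI₁, Finset.mem_image] at he
        obtain ⟨e₀, he₀, rfl⟩ := he
        exact ⟨φ, Finset.mem_insert_self _ _, e₀, tE_mono hY₁Y he₀, rfl⟩
    set X := U' \ (U ∪ I₁) with hX
    have hU'card : U'.card = U.card + (tE S Y₁).card + X.card := by
      have h1 : X.card + (U ∪ I₁).card = U'.card := by
        rw [hX, Finset.card_sdiff_add_card_eq_card hsub]
      have h2 : (U ∪ I₁).card = U.card + I₁.card := Finset.card_union_of_disjoint hdisj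
      have h3 : I₁.card = (tE S Y₁).card := Finset.card_image_of_injective _ hinj
      omega
    have hUB : (UimB S (insert φ Q) Y).card ≤ (UimB S Q Y).card + (bE S Y Y₁).card + X.card := by
      have hs : UimB S (insert φ Q) Y ⊆ (UimB S Q Y ∪ (bE S Y Y₁).image (Sym2.map φ)) ∪ X := by
        intro e' he'
        rw [mem_UimB] at he'
        obtain ⟨ψ, hψ, e, he, rfl⟩ := he'
        rw [Finset.mem_union, Finset.mem_union]
        rw [Finset.mem_insert] at hψ
        rcases hψ with rfl | hψ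
        swap
        · exact Or.inl (Or.inl (mem_UimB.mpr ⟨ψ, hψ, e, he, rfl⟩))
        rw [mem_bE] at he
        obtain ⟨heT, v, hve, hvY⟩ := he
        by_cases h1 : e ∈ tE S Y₁
        · exact Or.inl (Or.inr (Finset.mem_image_of_mem _ (mem_bE.mpr ⟨h1, v, hve, hvY⟩)))
        have hin : Sym2.map ψ e ∈ U' := by
          rw [hU', mem_Uim]
          exact ⟨ψ, Finset.mem_insert_self _ _, e, heT, rfl⟩
        have hnI : Sym2.map ψ e ∉ I₁ := by
          intro h
          rw [hI₁, Finset.mem_image] at h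
          obtain ⟨e₁, he₁, heq⟩ := h
          exact h1 (hinj heq ▸ he₁)
        by_cases h2 : Sym2.map ψ e ∈ U
        · left; left
          rw [hU, mem_Uim] at h2
          obtain ⟨χ, hχ, e₂, he₂, heq⟩ := h2
          rw [mem_UimB]
          refine ⟨χ, hχ, e₂, mem_bE.mpr ⟨he₂, ?_⟩, heq⟩
          have hmem : ψ v ∈ Sym2.map χ e₂ := by
            rw [heq]; exact Sym2.mem_map.mpr ⟨v, hve, rfl⟩
          rw [Sym2.mem_map] at hmem
          obtain ⟨v₂, hv₂, hvv⟩ := hmem
          have h3 := hagree ψ (Finset.mem_insert_self _ _) χ (Finset.mem_insert_of_mem hχ) v hvY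
          rw [h3] at hvv
          have := (hemb χ (Finset.mem_insert_of_mem hχ)).1 hvv
          exact ⟨v₂, hv₂, this ▸ hvY⟩
        · right
          rw [hX, Finset.mem_sdiff, Finset.mem_union]
          exact ⟨hin, fun h => h.elim h2 hnI⟩
      calc _ ≤ ((UimB S Q Y ∪ (bE S Y Y₁).image (Sym2.map φ)) ∪ X).card := Finset.card_le_card hs
        _ ≤ (UimB S Q Y ∪ (bE S Y Y₁).image (Sym2.map φ)).card + X.card :=
            Finset.card_union_le _ _
        _ ≤ ((UimB S Q Y).card + ((bE S Y Y₁).image (Sym2.map φ)).card) + X.card := by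
            gcongr; exact Finset.card_union_le _ _
        _ ≤ _ := by gcongr; exact Finset.card_image_le
    have hpiece : (n : ℝ) ^ Y₁.card * r ^ (tE S Y₁).card * E ^ (bE S Y Y₁).card ≤ 1 := by
      by_cases hne : Y₁.Nonempty
      · exact hpc Y₁ hY₁Y hne
      · rw [Finset.not_nonempty_iff_eq_empty] at hne
        have h1 : tE S (∅ : Finset V) = ∅ := by
          rw [Finset.eq_empty_iff_forall_notMem]
          intro e he
          obtain ⟨-, y, hy, -⟩ := mem_tE.mp he
          exact absurd hy (Finset.notMem_empty _)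
        have h2 : bE S Y (∅ : Finset V) = ∅ := by
          unfold bE; rw [h1]; rfl
        rw [hne, h1, h2]
        simp
    calc (n : ℝ) ^ (Fim (insert φ Q) Y).card * r ^ U'.card * E ^ (UimB S (insert φ Q) Y).card
        ≤ (n : ℝ) ^ ((Fim Q Y).card + Y₁.card) * r ^ (U.card + (tE S Y₁).card + X.card)
            * E ^ ((UimB S Q Y).card + (bE S Y Y₁).card + X.card) := by
          rw [hU'card]
          apply mul_le_mul
          · apply mul_le_mul_of_nonneg_right (pow_le_pow_right₀ hn' hF); positivity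
          · exact pow_le_pow_right₀ hE hUB
          · positivity
          · positivity
      _ = ((n : ℝ) ^ (Fim Q Y).card * r ^ U.card * E ^ (UimB S Q Y).card)
            * ((n : ℝ) ^ Y₁.card * r ^ (tE S Y₁).card * E ^ (bE S Y Y₁).card)
            * (r * E) ^ X.card := by
          rw [pow_add, pow_add, pow_add, pow_add, pow_add, mul_pow]; ring
      _ ≤ 1 * 1 * 1 := by
          apply mul_le_mul
          · apply mul_le_mul ih' hpiece (by positivity) (by norm_num)
          · exact pow_le_one₀ (by positivity) hrE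
          · positivity
          · norm_num
      _ = 1 := by norm_num

/-- In an unlikely set some vertex, adjacent to the outside, takes few values. -/
lemma exists_few_values' (S : SimpleGraph V) (H : SimpleGraph W) (Y : Finset V)
    (n : ℕ) (hn : 2 ≤ n) (r E K : ℝ) (hr0 : 0 ≤ r) (hE : 1 < E) (hrE : r * E ≤ 1)
    (hK : Real.log n ≤ K * Real.log E)
    (hP1 : ∀ U : Finset (Sym2 W), (∀ e ∈ U, e ∈ H.edgeSet) →
      1 ≤ (n : ℝ) ^ (supp U).card * r ^ U.card)
    (hst : (n : ℝ) ^ Y.card * r ^ (tE S Y).card < 1)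
    (hpc : ∀ Y' ⊆ Y, Y'.Nonempty →
      (n : ℝ) ^ Y'.card * r ^ (tE S Y').card * E ^ (bE S Y Y').card ≤ 1)
    (Q : Finset (V → W)) (hemb : ∀ φ ∈ Q, IsEmb S H φ)
    (hagree : ∀ φ ∈ Q, ∀ φ' ∈ Q, ∀ v, v ∉ Y → φ v = φ' v) (hQ : Q.Nonempty) :
    ∃ y ∈ Y, ((Q.image (fun φ => φ y)).card : ℝ) ≤ min K (H.maxDegree : ℝ) := by
  have hn' : (1 : ℝ) ≤ n := by exact_mod_cast (by omega : 1 ≤ n)
  have hn0 : (0 : ℝ) < n := by linarith
  have hE0 : 0 < E := by linarith
  obtain ⟨φ₀, h₀⟩ := hQ
  have hcl := closure_le' S H Y n (by omega) r E hr0 hE.le hrE hpc Q hemb hagree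
  have hUH : ∀ e ∈ Uim S Q Y, e ∈ H.edgeSet := by
    intro e he
    rw [mem_Uim] at he
    obtain ⟨φ, hφ, e', he', rfl⟩ := he
    exact (hemb φ hφ).map_mem (mem_tE.mp he').1
  have h1 := hP1 _ hUH
  set t := (bd S Y).card with ht
  set f := (Fim Q Y).card with hf
  set u := (Uim S Q Y).card with hu
  set ub := (UimB S Q Y).card with hub
  have hsupp : (supp (Uim S Q Y)).card ≤ t + f := by
    calc _ ≤ ((bd S Y).image φ₀ ∪ Fim Q Y).card :=
          Finset.card_le_card (supp_Uim_subset hagree h₀)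
      _ ≤ ((bd S Y).image φ₀).card + (Fim Q Y).card := Finset.card_union_le _ _
      _ ≤ t + f := by gcongr; exact Finset.card_image_le
  have h2 : E ^ ub ≤ (n : ℝ) ^ t := by
    have h3 : (1 : ℝ) ≤ (n : ℝ) ^ t * ((n : ℝ) ^ f * r ^ u) := by
      calc (1 : ℝ) ≤ (n : ℝ) ^ (supp (Uim S Q Y)).card * r ^ u := h1
        _ ≤ (n : ℝ) ^ (t + f) * r ^ u := by
            apply mul_le_mul_of_nonneg_right (pow_le_pow_right₀ hn' hsupp); positivity
        _ = _ := by rw [pow_add]; ring
    calc E ^ ub = 1 * E ^ ub := (one_mul _).symm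
      _ ≤ ((n : ℝ) ^ t * ((n : ℝ) ^ f * r ^ u)) * E ^ ub := by
          apply mul_le_mul_of_nonneg_right h3; positivity
      _ = (n : ℝ) ^ t * ((n : ℝ) ^ f * r ^ u * E ^ ub) := by ring
      _ ≤ (n : ℝ) ^ t * 1 := by apply mul_le_mul_of_nonneg_left hcl; positivity
      _ = _ := mul_one _
  have hlE : 0 < Real.log E := Real.log_pos hE
  have h3 : (ub : ℝ) ≤ t * K := by
    have h := Real.log_le_log (by positivity) h2
    rw [Real.log_pow, Real.log_pow] at h
    have h4 : (ub : ℝ) * Real.log E ≤ (t * K) * Real.log E := by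
      calc (ub : ℝ) * Real.log E ≤ t * Real.log n := h
        _ ≤ t * (K * Real.log E) := mul_le_mul_of_nonneg_left hK (by positivity)
        _ = _ := by ring
    exact le_of_mul_le_mul_right h4 hlE
  -- the boundary is nonempty
  have hbd : (bd S Y).Nonempty := by
    rw [Finset.nonempty_iff_ne_empty]
    intro hempty
    set U₀ : Finset (Sym2 W) := (tE S Y).image (Sym2.map φ₀) with hU₀
    have hU₀H : ∀ e ∈ U₀, e ∈ H.edgeSet := by
      intro e he
      rw [hU₀, Finset.mem_image] at he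
      obtain ⟨e', he', rfl⟩ := he
      exact (hemb φ₀ h₀).map_mem (mem_tE.mp he').1
    have h4 := hP1 _ hU₀H
    have h5 : U₀.card = (tE S Y).card :=
      Finset.card_image_of_injective _ (Sym2.map.injective (hemb φ₀ h₀).1)
    have h6 : (supp U₀).card ≤ Y.card := by
      calc (supp U₀).card ≤ (Y.image φ₀).card := by
            apply Finset.card_le_card
            intro w hw
            rw [mem_supp] at hw
            obtain ⟨e, he, hwe⟩ := hw
            rw [hU₀, Finset.mem_image] at he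
            obtain ⟨e', he', rfl⟩ := he
            rw [Sym2.mem_map] at hwe
            obtain ⟨v, hv, rfl⟩ := hwe
            apply Finset.mem_image_of_mem
            by_contra hvY
            obtain ⟨y, hy, hadj, -⟩ := adj_of_mem_tE he' hv hvY
            have : v ∈ bd S Y := mem_bd.mpr ⟨hvY, y, hy, hadj⟩
            rw [hempty] at this
            exact absurd this (Finset.notMem_empty _)
        _ ≤ Y.card := Finset.card_image_le
    have h7 : (1 : ℝ) ≤ (n : ℝ) ^ Y.card * r ^ (tE S Y).card := by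
      calc (1 : ℝ) ≤ (n : ℝ) ^ (supp U₀).card * r ^ U₀.card := h4
        _ ≤ (n : ℝ) ^ Y.card * r ^ (tE S Y).card := by
            rw [h5]
            apply mul_le_mul_of_nonneg_right (pow_le_pow_right₀ hn' h6); positivity
    linarith
  -- choose neighbours
  have hz : ∀ w : V, ∃ y : V, w ∈ bd S Y → (y ∈ Y ∧ S.Adj y w) := by
    intro w
    by_cases hw : w ∈ bd S Y
    · obtain ⟨-, y, hy, hadj⟩ := mem_bd.mp hw
      exact ⟨y, fun _ => ⟨hy, hadj⟩⟩
    · exact ⟨w, fun h => absurd h hw⟩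
  choose z hz using hz
  have hsum : ∑ w ∈ bd S Y, (Q.image (fun φ => φ (z w))).card ≤ ub := by
    rw [← Finset.card_sigma, hub]
    apply Finset.card_le_card_of_injOn (fun x : (Σ _ : V, W) => s(φ₀ x.1, x.2))
    · intro x hx
      rw [Finset.mem_coe, Finset.mem_sigma, Finset.mem_image] at hx
      obtain ⟨hx1, φ, hφ, hx2⟩ := hx
      have hx1' := mem_bd.mp hx1
      obtain ⟨hzY, hadj⟩ := hz _ hx1
      rw [Finset.mem_coe, mem_UimB]
      refine ⟨φ, hφ, s(z x.1, x.1), mem_bE.mpr ⟨mem_tE.mpr ⟨hadj, z x.1, hzY,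
        Sym2.mem_mk_left _ _⟩, x.1, Sym2.mem_mk_right _ _, hx1'.1⟩, ?_⟩
      rw [Sym2.map_mk]
      simp only at hx2 ⊢
      rw [hx2, hagree φ hφ φ₀ h₀ x.1 hx1'.1, Sym2.eq_swap]
    · intro x hx x' hx' heq
      rw [Finset.mem_coe, Finset.mem_sigma, Finset.mem_image] at hx hx'
      obtain ⟨hx1, φ, hφ, hx2⟩ := hx
      obtain ⟨hx1', φ', hφ', hx2'⟩ := hx'
      have hF : x.2 ∈ Fim Q Y := mem_Fim.mpr ⟨φ, hφ, z x.1, (hz _ hx1).1, hx2⟩
      have hF' : x'.2 ∈ Fim Q Y := mem_Fim.mpr ⟨φ', hφ', z x'.1, (hz _ hx1').1, hx2'⟩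
      have hnF := notMem_Fim hemb hagree h₀ (mem_bd.mp hx1).1
      have hnF' := notMem_Fim hemb hagree h₀ (mem_bd.mp hx1').1
      simp only [Sym2.eq_iff] at heq
      rcases heq with ⟨ha, hb⟩ | ⟨ha, hb⟩
      · obtain ⟨a, b⟩ := x
        obtain ⟨a', b'⟩ := x'
        simp only at ha hb
        have := (hemb φ₀ h₀).1 ha
        subst this
        subst hb
        rfl
      · exact absurd (ha ▸ hF') hnF
  have hsum' : ∑ w ∈ bd S Y, ((Q.image (fun φ => φ (z w))).card : ℝ)
      ≤ ∑ w ∈ bd S Y, K := by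
    rw [Finset.sum_const, nsmul_eq_mul, ← ht]
    refine le_trans ?_ h3
    exact_mod_cast hsum
  obtain ⟨w, hw, hle⟩ := Finset.exists_le_of_sum_le hbd hsum'
  obtain ⟨hzY, hadj⟩ := hz w hw
  refine ⟨z w, hzY, le_min hle ?_⟩
  have hsubset : Q.image (fun φ => φ (z w)) ⊆ H.neighborFinset (φ₀ w) := by
    intro x hx
    rw [Finset.mem_image] at hx
    obtain ⟨φ, hφ, rfl⟩ := hx
    rw [SimpleGraph.mem_neighborFinset]
    rw [hagree φ₀ h₀ φ hφ w (mem_bd.mp hw).1]
    exact ((hemb φ hφ).2 _ _ hadj).symm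
  have : (Q.image (fun φ => φ (z w))).card ≤ H.maxDegree :=
    (Finset.card_le_card hsubset).trans (by
      rw [SimpleGraph.card_neighborFinset_eq_degree]
      exact SimpleGraph.degree_le_maxDegree H _)
  exact_mod_cast this

/-- Families of embeddings that agree off an unlikely set are small. -/
lemma family_card_le' (S : SimpleGraph V) (H : SimpleGraph W)
    (n : ℕ) (hn : 2 ≤ n) (r E K : ℝ) (hr0 : 0 ≤ r) (hE : 1 < E) (hrE : r * E ≤ 1)
    (hK : Real.log n ≤ K * Real.log E) (hK0 : 0 ≤ K)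
    (hP1 : ∀ U : Finset (Sym2 W), (∀ e ∈ U, e ∈ H.edgeSet) →
      1 ≤ (n : ℝ) ^ (supp U).card * r ^ U.card) :
    ∀ (m : ℕ) (Y : Finset V), Y.card = m →
    (∀ Y' ⊆ Y, Y'.Nonempty → (n : ℝ) ^ Y'.card * r ^ (tE S Y').card < 1) →
    (∀ Y₂ ⊆ Y, ∀ Y' ⊆ Y₂, Y'.Nonempty →
      (n : ℝ) ^ Y'.card * r ^ (tE S Y').card * E ^ (bE S Y₂ Y').card ≤ 1) →
    ∀ (Q : Finset (V → W)), (∀ φ ∈ Q, IsEmb S H φ) →
    (∀ φ ∈ Q, ∀ φ' ∈ Q, ∀ v, v ∉ Y → φ v = φ' v) →
    (Q.card : ℝ) ≤ (min K (H.maxDegree : ℝ)) ^ m := by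
  intro m
  have hB : 0 ≤ min K (H.maxDegree : ℝ) := le_min hK0 (Nat.cast_nonneg _)
  induction m with
  | zero =>
    intro Y hYc _ _ Q _ hagree
    rw [Finset.card_eq_zero] at hYc
    rw [pow_zero]
    have : Q.card ≤ 1 := by
      rw [Finset.card_le_one]
      intro φ hφ φ' hφ'
      funext v
      exact hagree φ hφ φ' hφ' v (by rw [hYc]; exact Finset.notMem_empty _)
    exact_mod_cast this
  | succ m ih =>
    intro Y hYc hst hpc Q hemb hagree
    by_cases hQ : Q.Nonempty
    · have hY : Y.Nonempty := Finset.card_pos.mp (by omega)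
      obtain ⟨y, hy, hle⟩ := exists_few_values' S H Y n hn r E K hr0 hE hrE hK hP1
        (hst Y (Finset.Subset.refl _) hY) (hpc Y (Finset.Subset.refl _)) Q hemb hagree hQ
      have hcard : (Q.card : ℝ) = ∑ x ∈ Q.image (fun φ => φ y),
          ((Q.filter (fun φ => φ y = x)).card : ℝ) := by
        rw [Finset.card_eq_sum_card_image (fun φ => φ y) Q]
        push_cast
        rfl
      have hterm : ∀ x ∈ Q.image (fun φ => φ y), ((Q.filter (fun φ => φ y = x)).card : ℝ)
          ≤ (min K (H.maxDegree : ℝ)) ^ m := by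
        intro x _
        apply ih (Y.erase y) (by rw [Finset.card_erase_of_mem hy, hYc]; rfl)
        · intro Y' hY'
          exact hst Y' (hY'.trans (Finset.erase_subset _ _))
        · intro Y₂ hY₂
          exact hpc Y₂ (hY₂.trans (Finset.erase_subset _ _))
        · intro φ hφ
          exact hemb φ (Finset.mem_filter.mp hφ).1
        · intro φ hφ φ' hφ' v hv
          rw [Finset.mem_filter] at hφ hφ'
          by_cases hvy : v = y
          · rw [hvy, hφ.2, hφ'.2]
          · exact hagree φ hφ.1 φ' hφ'.1 v (fun h => hv (Finset.mem_erase.mpr ⟨hvy, h⟩))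
      rw [hcard]
      calc _ ≤ ∑ x ∈ Q.image (fun φ => φ y), (min K (H.maxDegree : ℝ)) ^ m :=
            Finset.sum_le_sum hterm
        _ = ((Q.image (fun φ => φ y)).card : ℝ) * (min K (H.maxDegree : ℝ)) ^ m := by
            rw [Finset.sum_const, nsmul_eq_mul]
        _ ≤ (min K (H.maxDegree : ℝ)) * (min K (H.maxDegree : ℝ)) ^ m := by
            apply mul_le_mul_of_nonneg_right hle; positivity
        _ = _ := by rw [pow_succ]; ring
    · rw [Finset.not_nonempty_iff_eq_empty] at hQ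
      rw [hQ]
      simp only [Finset.card_empty, Nat.cast_zero]
      positivity

end Pool.Agent.TH644.KD
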