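import Pool.Agent.TH644.KD.Main
import Pool.Agent.TH965.Final

/-!
# The threshold for containing a graph with a cycle
-/

set_option autoImplicit false
set_option linter.unusedSectionVars false

namespace Pool.Agent.TH644.KD

open Finset
open scoped Classical
open Pool.Agent.TH965 Pool.Agent.TH965.Emb Pool.Agent.TH965.Copy Pool.Agent.TH965.Spread

/-- A bound on the threshold from a bound on the numbers of embeddings. -/
lemma threshold_of_emb {n m : ℕ} (_hn : 2 ≤ n) (hmn : m ≤ n) (H : SimpleGraph (Fin m))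
    (q : ℝ) (hq : 0 < q)
    (hemb : ∀ T : Finset (Sym2 (Fin n)), (∀ e ∈ T, ¬ e.IsDiag) →
      ((embF (gT T) H).card : ℝ) ≤ q ^ T.card * (n : ℝ) ^ (supp T).card)
    (pc : ℝ) (hpc1 : pc ≤ 1)
    (hpc : gnp n pc (fun G => H.IsContained G) ≤ 1 / 2) :
    pc ≤ (Nat.log 2 H.edgeSet.ncard + 1 : ℝ) * (32 * (q * Real.exp 2)) := by
  by_contra hcon
  push Not at hcon
  set p' : ℝ := (Nat.log 2 H.edgeSet.ncard + 1 : ℝ) * (32 * (q * Real.exp 2)) with hp'
  have hp'1 : p' ≤ 1 := (hcon.le).trans hpc1
  have hp'0 : 0 ≤ p' := by positivity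
  have hspr : ∀ T : Finset (Sym2 (Fin n)),
      (Nat.card {σ : Equiv.Perm (Fin n) // T ⊆ cop hmn H σ} : ℝ)
      ≤ (q * Real.exp 2) ^ T.card * Fintype.card (Equiv.Perm (Fin n)) := by
    intro T
    rw [Nat.card_eq_fintype_card, Fintype.card_subtype]
    by_cases hT : ∀ e ∈ T, ¬ e.IsDiag
    · exact card_through hmn H T _ (hemb T hT)
    · push Not at hT
      obtain ⟨e, he, hd⟩ := hT
      have : Finset.univ.filter (fun σ : Equiv.Perm (Fin n) => T ⊆ cop hmn H σ) = ∅ := by
        rw [Finset.eq_empty_iff_forall_notMem]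
        intro σ hσ
        exact cop_notDiag hmn H σ e ((Finset.mem_filter.mp hσ).2 he) hd
      rw [this, Finset.card_empty, Nat.cast_zero]
      positivity
  have hsp := spread (eF (⊤ : SimpleGraph (Fin n))) (fun σ : Equiv.Perm (Fin n) => cop hmn H σ)
    (by
      intro σ e he
      have := cop_notDiag hmn H σ e he
      rw [mem_eF, SimpleGraph.edgeSet_top]
      exact this)
    H.edgeSet.ncard (fun σ => by rw [cop_card, eF_card]) (q * Real.exp 2) (by positivity)
    hspr p' le_rfl hp'1
  have h1 : 6 / 7 ≤ gnp n p' (fun G => H.IsContained G) := by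
    rw [gnp_eq_exs]
    refine hsp.trans ?_
    apply exs_mono _ hp'0 hp'1
    intro W _
    by_cases hex : ∃ σ, cop hmn H σ ⊆ W
    · obtain ⟨σ, hσ⟩ := hex
      rw [if_pos ⟨σ, hσ⟩, if_pos (isContained_of_cop hmn H σ W hσ)]
    · rw [if_neg hex]
      split_ifs <;> norm_num
  have h2 : gnp n p' (fun G => H.IsContained G) ≤ gnp n pc (fun G => H.IsContained G) := by
    apply gnp_mono n hp'0 hcon.le hpc1
    intro G G' hGG' hH
    exact hH.trans_le hGG'
  linarith

/-- The infimum in the definition of the expectation threshold is attained. -/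
lemma pE_mem {n m : ℕ} (hmn : m ≤ n) (H : SimpleGraph (Fin m)) :
    0 ≤ pE n H ∧ pE n H ≤ 1 ∧ ∀ H' : H.Subgraph,
      1 ≤ (n.descFactorial H'.verts.ncard : ℝ) / (Nat.card (H'.coe ≃g H'.coe) : ℝ)
        * (pE n H) ^ H'.edgeSet.ncard := by
  have hcl : IsClosed {p : ℝ | 0 ≤ p ∧ p ≤ 1 ∧ ∀ H' : H.Subgraph,
      1 ≤ (n.descFactorial H'.verts.ncard : ℝ) / (Nat.card (H'.coe ≃g H'.coe) : ℝ)
        * p ^ H'.edgeSet.ncard} := by
    have h1 : {p : ℝ | 0 ≤ p ∧ p ≤ 1 ∧ ∀ H' : H.Subgraph,
      1 ≤ (n.descFactorial H'.verts.ncard : ℝ) / (Nat.card (H'.coe ≃g H'.coe) : ℝ)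
        * p ^ H'.edgeSet.ncard} = {p : ℝ | 0 ≤ p} ∩ ({p : ℝ | p ≤ 1} ∩ ⋂ H' : H.Subgraph,
        {p : ℝ | 1 ≤ (n.descFactorial H'.verts.ncard : ℝ) / (Nat.card (H'.coe ≃g H'.coe) : ℝ)
        * p ^ H'.edgeSet.ncard}) := by
      ext p
      simp only [Set.mem_ofPred_eq, Set.mem_inter_iff, Set.mem_iInter]
    rw [h1]
    refine (isClosed_le continuous_const continuous_id).inter
      ((isClosed_le continuous_id continuous_const).inter (isClosed_iInter (fun H' => ?_)))
    exact isClosed_le continuous_const (continuous_const.mul (continuous_pow _))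
  have hbdd : BddBelow {p : ℝ | 0 ≤ p ∧ p ≤ 1 ∧ ∀ H' : H.Subgraph,
      1 ≤ (n.descFactorial H'.verts.ncard : ℝ) / (Nat.card (H'.coe ≃g H'.coe) : ℝ)
        * p ^ H'.edgeSet.ncard} := ⟨0, fun p hp => hp.1⟩
  exact hcl.csInf_mem (pE_set_nonempty hmn H) hbdd

/-- The condition for one subgraph, without automorphisms. -/
lemma one_le_pow_mul {n m : ℕ} (H : SimpleGraph (Fin m)) (F : H.Subgraph) (p : ℝ) (hp : 0 ≤ p)
    (h : 1 ≤ (n.descFactorial F.verts.ncard : ℝ) / (Nat.card (F.coe ≃g F.coe) : ℝ)
        * p ^ F.edgeSet.ncard) : 1 ≤ (n : ℝ) ^ F.verts.ncard * p ^ F.edgeSet.ncard := by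
  have hfin : Finite (F.coe ≃g F.coe) := by
    apply Finite.of_injective (fun f => f.toEquiv)
    intro f f' h
    exact RelIso.toEquiv_injective h
  have hne : Nonempty (F.coe ≃g F.coe) := ⟨RelIso.refl _⟩
  have hpos : (1 : ℝ) ≤ Nat.card (F.coe ≃g F.coe) := by exact_mod_cast Nat.card_pos
  refine h.trans ?_
  apply mul_le_mul_of_nonneg_right _ (by positivity)
  calc (n.descFactorial F.verts.ncard : ℝ) / (Nat.card (F.coe ≃g F.coe) : ℝ)
      ≤ (n.descFactorial F.verts.ncard : ℝ) / 1 :=
        div_le_div_of_nonneg_left (by positivity) (by norm_num) hpos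
    _ = (n.descFactorial F.verts.ncard : ℝ) := div_one _
    _ ≤ (n : ℝ) ^ F.verts.ncard := by exact_mod_cast Nat.descFactorial_le_pow n _

/-- **Upper bound on the threshold of a graph with a cycle.** -/
theorem cyclic_threshold_le_pE {n m : ℕ} (hn : 2 ≤ n) (hmn : m ≤ n) (H : SimpleGraph (Fin m))
    (F : H.Subgraph) (hF0 : 0 < F.edgeSet.ncard) (hF : F.verts.ncard ≤ F.edgeSet.ncard)
    (pc : ℝ) (hpc1 : pc ≤ 1)
    (hpc : gnp n pc (fun G => H.IsContained G) ≤ 1 / 2) :
    pc ≤ 220000 * pE n H
      * (min (H.maxDegree : ℝ) (Real.log (n * pE n H) + Real.log n / (n * pE n H)))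
          ^ ((F.verts.ncard : ℝ) / F.edgeSet.ncard)
      * Real.log (2 * H.edgeSet.ncard) := by
  have hn0 : (0 : ℝ) < n := by exact_mod_cast (by omega : 0 < n)
  have hlog2 : 0.69 < Real.log 2 := by have := Real.log_two_gt_d9; linarith
  have hlog2' : Real.log 2 < 0.7 := by have := Real.log_two_lt_d9; linarith
  have hl2pos : 0 < Real.log 2 := by linarith
  have hlogn : Real.log 2 ≤ Real.log n :=
    Real.log_le_log (by norm_num) (by exact_mod_cast hn)
  have hL : 0 < Real.log n := by linarith
  have hH : H ≠ ⊥ := by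
    rintro rfl
    have h1 : F.edgeSet ⊆ (⊥ : SimpleGraph (Fin m)).edgeSet := F.edgeSet_subset
    rw [SimpleGraph.edgeSet_bot, Set.subset_empty_iff] at h1
    rw [h1, Set.ncard_empty] at hF0
    exact lt_irrefl 0 hF0
  have hedge : 1 ≤ H.edgeSet.ncard := by
    rw [Nat.one_le_iff_ne_zero, Ne, Set.ncard_eq_zero]
    intro he
    exact hH (SimpleGraph.edgeSet_eq_empty.mp he)
  have hdeg : 1 ≤ H.maxDegree := by
    by_contra hcon
    have h0 : H.maxDegree = 0 := by omega
    apply hH
    ext a b
    constructor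
    · intro hab
      have h1 := SimpleGraph.degree_le_maxDegree H a
      rw [h0, Nat.le_zero] at h1
      rw [← SimpleGraph.card_neighborFinset_eq_degree, Finset.card_eq_zero] at h1
      have h2 : b ∈ H.neighborFinset a := by
        rw [SimpleGraph.mem_neighborFinset]; exact hab
      rw [h1] at h2
      exact absurd h2 (Finset.notMem_empty _)
    · intro hab
      exact absurd hab (by simp)
  have hdeg' : (1 : ℝ) ≤ H.maxDegree := by exact_mod_cast hdeg
  have hdegn : (H.maxDegree : ℝ) ≤ n := by
    have h1 : H.maxDegree < Fintype.card (Fin m) := by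
      have : Nonempty (Fin m) := by
        by_contra hne
        rw [not_nonempty_iff] at hne
        apply hH
        ext a
        exact hne.elim a
      exact H.maxDegree_lt_card_verts
    rw [Fintype.card_fin] at h1
    exact_mod_cast (h1.le.trans hmn)
  obtain ⟨hp0, hp1, hp⟩ := pE_mem hmn H
  have hppos := pE_set_pos H hH (pE n H) hp0 hp
  set p := pE n H with hpdef
  -- the subgraph F
  have hv0 : 0 < F.verts.ncard := by
    rw [Set.ncard_pos]
    rw [Set.ncard_pos] at hF0
    obtain ⟨e, he⟩ := hF0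
    induction e using Sym2.ind with
    | _ a b => exact ⟨a, F.edge_vert he⟩
  set vF := F.verts.ncard with hvF
  set eF' := F.edgeSet.ncard with heF
  have hvF' : (1 : ℝ) ≤ vF := by exact_mod_cast hv0
  have heF' : (1 : ℝ) ≤ eF' := by exact_mod_cast hF0
  have hFp := one_le_pow_mul H F p hp0 (hp F)
  have hFlog : 0 ≤ (vF : ℝ) * Real.log n + eF' * Real.log p := by
    have h := Real.log_nonneg hFp
    rw [Real.log_mul (by positivity) (by positivity), Real.log_pow, Real.log_pow] at h
    exact h
  set α : ℝ := (vF : ℝ) / eF' with hαdef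
  have hα0 : 0 < α := by positivity
  have hα1 : α ≤ 1 := by
    rw [hαdef, div_le_one (by linarith)]
    exact_mod_cast hF
  have hαp : -(α * Real.log n) ≤ Real.log p := by
    have h1 : -((vF : ℝ) * Real.log n) / eF' ≤ Real.log p := by
      rw [div_le_iff₀ (by linarith)]
      linarith
    calc -(α * Real.log n) = -((vF : ℝ) * Real.log n) / eF' := by rw [hαdef]; ring
      _ ≤ _ := h1
  have hlogp : Real.log p ≤ 0 := Real.log_nonpos hp0 hp1
  set μ : ℝ := n * p with hμ
  have hμ0 : 0 < μ := by positivity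
  have hlogμ : 0 ≤ Real.log μ := by
    rw [hμ, Real.log_mul hn0.ne' hppos.ne']
    nlinarith
  have hμ1 : 1 ≤ μ := by
    rw [← Real.exp_log hμ0, ← Real.exp_zero]
    exact Real.exp_le_exp.mpr hlogμ
  set f : ℝ := Real.log μ + Real.log n / μ with hf
  have hfge : Real.log 2 ≤ f := by
    have h1 : 1 - 1 / μ ≤ Real.log μ := by
      have := Real.one_sub_inv_le_log_of_pos hμ0
      rwa [one_div]
    have h2 : 0 ≤ 1 - 1 / μ := by
      rw [sub_nonneg, div_le_one hμ0]; exact hμ1
    have h3 : Real.log 2 / μ ≤ Real.log n / μ := div_le_div_of_nonneg_right hlogn hμ0.le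
    have h4 : Real.log 2 * (1 - 1 / μ) ≤ 1 - 1 / μ := by nlinarith
    have h5 : Real.log 2 * (1 - 1 / μ) + Real.log 2 / μ = Real.log 2 := by ring
    rw [hf]; linarith
  set G : ℝ := min (H.maxDegree : ℝ) f with hG
  have hGge : Real.log 2 ≤ G := le_min (by linarith) hfge
  have hGpos : 0 < G := by linarith
  set b : ℝ := min (2.5 * G) n with hbdef
  have hb1 : 1 ≤ b := by
    apply le_min
    · nlinarith
    · exact_mod_cast (by omega : 1 ≤ n)
  have hbn : b ≤ n := min_le_right _ _
  have hb0 : 0 < b := by linarith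
  have hbB : b ^ α ≤ 2.5 * G ^ α := by
    calc b ^ α ≤ (2.5 * G) ^ α := Real.rpow_le_rpow hb0.le (min_le_left _ _) hα0.le
      _ = 2.5 ^ α * G ^ α := Real.mul_rpow (by norm_num) hGpos.le
      _ ≤ 2.5 * G ^ α := by
          apply mul_le_mul_of_nonneg_right _ (by positivity)
          calc (2.5 : ℝ) ^ α ≤ 2.5 ^ (1 : ℝ) :=
                Real.rpow_le_rpow_of_exponent_le (by norm_num) hα1
            _ = 2.5 := Real.rpow_one _
  have hB1 : 1 ≤ b ^ α := Real.one_le_rpow hb1 hα0.le
  have hq0 : 0 < 256 * b ^ α * p := by positivity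
  -- numbers of embeddings
  have hemb : ∀ T : Finset (Sym2 (Fin n)), (∀ e ∈ T, ¬ e.IsDiag) →
      ((embF (gT T) H).card : ℝ) ≤ (256 * b ^ α * p) ^ T.card * (n : ℝ) ^ (supp T).card := by
    intro T hT
    have hVc : Fintype.card {x // x ∈ supp T} = (supp T).card := Fintype.card_coe _
    by_cases hpe : p ≤ Real.exp (-1)
    · have hρ : p = (p * Real.exp 1) * Real.exp (-1) := by
        rw [mul_assoc, ← Real.exp_add]; simp
      have hnρ : (n : ℝ) * (p * Real.exp 1) = μ * Real.exp 1 := by rw [hμ]; ring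
      have hlogρ : Real.log (p * Real.exp 1) = Real.log p + 1 := by
        rw [Real.log_mul hppos.ne' (Real.exp_pos 1).ne', Real.log_exp]
      have hlognρ : Real.log (n * (p * Real.exp 1)) = Real.log μ + 1 := by
        rw [hnρ, Real.log_mul hμ0.ne' (Real.exp_pos 1).ne', Real.log_exp]
      have he1 : 1 ≤ Real.exp 1 := by
        have := Real.add_one_le_exp (1 : ℝ); linarith
      have := embF_card_le' H n hn (by rw [Fintype.card_fin]; exact hmn) (p * Real.exp 1)
        (by positivity) (by
          calc p * Real.exp 1 ≤ Real.exp (-1) * Real.exp 1 :=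
                mul_le_mul_of_nonneg_right hpe (Real.exp_pos _).le
            _ = 1 := by rw [← Real.exp_add]; simp)
        (by rw [hlognρ]; linarith) α hα0 hα1 (by rw [hlogρ]; linarith)
        (by
          intro U hU
          rw [← hρ]
          exact autc_bound H p hp0 hp U hU)
        b hb1 hbn (by
          rw [hlognρ, hnρ]
          apply le_min
          · have h1 : Real.log n / (μ * Real.exp 1) ≤ Real.log n / μ := by
              apply div_le_div_of_nonneg_left hL.le hμ0
              nlinarith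
            have h2 : Real.log μ + 1 + Real.log n / (μ * Real.exp 1) ≤ 2.5 * f := by
              have h3 : 1 ≤ 1.5 * f := by nlinarith
              rw [hf] at h3 ⊢
              linarith
            rcases le_total (H.maxDegree : ℝ) f with h | h
            · rw [hG, min_eq_left h]
              exact (min_le_right _ _).trans (by linarith)
            · rw [hG, min_eq_right h]
              exact (min_le_left _ _).trans h2
          · exact (min_le_right _ _).trans hdegn)
        (supp T).card {x // x ∈ supp T} (gT T) hVc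
      rw [← hρ, gT_edges T hT] at this
      exact this
    · push Not at hpe
      have h1 : ((embF (gT T) H).card : ℝ) ≤ (n : ℝ) ^ (supp T).card := by
        have h2 : (embF (gT T) H).card ≤ m ^ (supp T).card := by
          calc (embF (gT T) H).card ≤ Fintype.card ({x // x ∈ supp T} → Fin m) :=
                Finset.card_le_univ _
            _ = m ^ (supp T).card := by
                rw [← Nat.card_eq_fintype_card, Nat.card_fun, Nat.card_eq_fintype_card,
                  Nat.card_eq_fintype_card, Fintype.card_fin, hVc]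
        have h3 : m ^ (supp T).card ≤ n ^ (supp T).card := Nat.pow_le_pow_left hmn _
        exact_mod_cast h2.trans h3
      have h4 : 1 ≤ 256 * b ^ α * p := by
        have h5 : Real.exp (-1) ≥ 1 / 3 := by
          rw [Real.exp_neg, ge_iff_le, one_div]
          apply inv_anti₀ (Real.exp_pos 1) exp_one_lt_three.le
        nlinarith
      calc ((embF (gT T) H).card : ℝ) ≤ 1 * (n : ℝ) ^ (supp T).card := by rw [one_mul]; exact h1
        _ ≤ (256 * b ^ α * p) ^ T.card * (n : ℝ) ^ (supp T).card := by
            apply mul_le_mul_of_nonneg_right _ (by positivity)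
            exact one_le_pow₀ h4
  have hmain := threshold_of_emb hn hmn H (256 * b ^ α * p) hq0 hemb pc hpc1 hpc
  -- number of rounds
  set l : ℕ := H.edgeSet.ncard with hl
  have hl' : (1 : ℝ) ≤ l := by exact_mod_cast hedge
  set Lg : ℝ := Real.log (2 * l) with hLg
  have hLgpos : 0 < Lg := Real.log_pos (by linarith)
  have hround : (Nat.log 2 l + 1 : ℝ) ≤ Lg / Real.log 2 := by
    rw [le_div_iff₀ hl2pos]
    have h1 : (2 : ℝ) ^ (Nat.log 2 l) ≤ l := by
      exact_mod_cast Nat.pow_log_le_self 2 (by omega)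
    have h2 := Real.log_le_log (by positivity) h1
    rw [Real.log_pow] at h2
    rw [hLg, Real.log_mul (by norm_num) (by positivity)]
    linarith
  have he2 : Real.exp 2 < 7.4 := by
    have h := Real.exp_one_lt_d9
    have h2 : Real.exp 2 = Real.exp 1 * Real.exp 1 := by rw [← Real.exp_add]; norm_num
    have h0 : 0 < Real.exp 1 := Real.exp_pos 1
    rw [h2]
    nlinarith
  have hGα : 0 < G ^ α := by positivity
  calc pc ≤ (Nat.log 2 l + 1 : ℝ) * (32 * (256 * b ^ α * p * Real.exp 2)) := hmain
    _ ≤ (Lg / Real.log 2) * (32 * (256 * (2.5 * G ^ α) * p * 7.4)) := by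
        apply mul_le_mul hround _ (by positivity) (by positivity)
        apply mul_le_mul_of_nonneg_left _ (by norm_num)
        apply mul_le_mul _ he2.le (Real.exp_pos _).le (by positivity)
        apply mul_le_mul_of_nonneg_right _ hp0
        linarith
    _ = (151552 * (p * G ^ α * Lg)) / Real.log 2 := by ring
    _ ≤ 220000 * (p * G ^ α * Lg) := by
        rw [div_le_iff₀ hl2pos]
        have h4 : 0 ≤ p * G ^ α * Lg := by positivity
        nlinarith
    _ = 220000 * p * G ^ α * Lg := by ring

end Pool.Agent.TH644.KD
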