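import Pool.Agent.TH644.KD.Num

/-!
# Counting embeddings
-/

set_option autoImplicit false
set_option linter.unusedSectionVars false

namespace Pool.Agent.TH644.KD

open Finset
open scoped Classical
open Pool.Agent.TH965.Emb

section Zset

variable {V W : Type} [Fintype V] [Fintype W]

/-- Families of embeddings that agree off a minimal likely set. -/
lemma Z_family' (S : SimpleGraph V) (H : SimpleGraph W)
    (n : ℕ) (hn : 2 ≤ n) (hWn : Fintype.card W ≤ n) (ρ : ℝ) (hρ0 : 0 < ρ) (hρ1 : ρ ≤ 1)
    (hl : 1 ≤ Real.log (n * ρ)) (α : ℝ) (hα0 : 0 < α) (hα1 : α ≤ 1)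
    (hα : -(α * Real.log n) ≤ Real.log ρ)
    (hP : ∀ U : Finset (Sym2 W), (∀ e ∈ U, e ∈ H.edgeSet) →
      (autc U : ℝ) ≤ (n : ℝ) ^ (supp U).card * (ρ * Real.exp (-1)) ^ U.card)
    (b : ℝ) (hb1 : 1 ≤ b) (hbn : b ≤ n)
    (hb : min (Real.log (n * ρ) + Real.log n / (n * ρ)) (H.maxDegree : ℝ) ≤ b)
    (Z : Finset V) (hZ : Z.Nonempty)
    (hlik : 1 ≤ (n : ℝ) ^ Z.card * ρ ^ (tE S Z).card)
    (hmin : ∀ Z' ⊆ Z, Z'.Nonempty → Z' ≠ Z → (n : ℝ) ^ Z'.card * ρ ^ (tE S Z').card < 1)
    (Q : Finset (V → W)) (hemb : ∀ φ ∈ Q, IsEmb S H φ)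
    (hagree : ∀ φ ∈ Q, ∀ φ' ∈ Q, ∀ v, v ∉ Z → φ v = φ' v) :
    (Q.card : ℝ) ≤ (256 * b ^ α) ^ (tE S Z).card
      * ((n : ℝ) ^ Z.card * (ρ * Real.exp (-1)) ^ (tE S Z).card) := by
  have hn' : (1 : ℝ) ≤ n := by exact_mod_cast (by omega : 1 ≤ n)
  have hn0 : (0 : ℝ) < n := by linarith
  have hb0 : 0 < b := by linarith
  have hL : 0 < Real.log n := Real.log_pos (by exact_mod_cast (by omega : 1 < n))
  have hlam0 : (0 : ℝ) < n * ρ := by positivity
  set L := Real.log n with hLdef
  set l := Real.log (n * ρ) with hldef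
  have hl0 : 0 < l := by linarith
  have hlρ : Real.log ρ = l - L := by
    rw [hldef, Real.log_mul hn0.ne' hρ0.ne']; ring
  have hlam1 : 1 < (n : ℝ) * ρ := by
    have h1 : Real.exp 1 ≤ n * ρ := by
      rw [← Real.exp_log hlam0]
      exact Real.exp_le_exp.mpr hl
    have := Real.add_one_le_exp (1 : ℝ)
    linarith
  have hB1 : 1 ≤ b ^ α := Real.one_le_rpow hb1 hα0.le
  have hP1 : ∀ U : Finset (Sym2 W), (∀ e ∈ U, e ∈ H.edgeSet) →
      1 ≤ (n : ℝ) ^ (supp U).card * (ρ * Real.exp (-1)) ^ U.card := by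
    intro U hU
    refine le_trans ?_ (hP U hU)
    exact_mod_cast one_le_autc U
  set k := (tE S Z).card with hk
  set x : ℝ := (n : ℝ) ^ Z.card * (ρ * Real.exp (-1)) ^ k with hx
  have hx0 : 0 < x := by positivity
  rcases Nat.eq_zero_or_pos k with hk0 | hkpos
  · -- an isolated vertex
    obtain ⟨z, hz⟩ := hZ
    have hZz : ({z} : Finset V) = Z := by
      by_contra hne
      have h1 := hmin {z} (by simpa using hz) (Finset.singleton_nonempty z) hne
      have h2 : (tE S {z}).card = 0 := by
        have := Finset.card_le_card (tE_mono (S := S) (show ({z} : Finset V) ⊆ Z by simpa using hz))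
        omega
      rw [h2, Finset.card_singleton, pow_one, pow_zero, mul_one] at h1
      linarith
    have hcard : Q.card ≤ Fintype.card W := by
      rw [← Finset.card_univ]
      apply Finset.card_le_card_of_injOn (fun φ => φ z) (fun _ _ => Finset.mem_coe.mpr (Finset.mem_univ _))
      intro φ hφ φ' hφ' h
      funext v
      by_cases hv : v = z
      · rw [hv]; exact h
      · exact hagree φ hφ φ' hφ' v (by rw [← hZz, Finset.mem_singleton]; exact hv)
    have hxn : x = n := by
      rw [hx, hk0, ← hZz, Finset.card_singleton]; ring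
    rw [hk0, hxn, pow_zero, one_mul]
    exact_mod_cast hcard.trans hWn
  by_cases hQ : Q.Nonempty
  swap
  · rw [Finset.not_nonempty_iff_eq_empty] at hQ
    rw [hQ, Finset.card_empty, Nat.cast_zero]
    positivity
  -- every vertex of Z has a neighbour
  have hcov : ∀ z ∈ Z, ∃ w, S.Adj z w := by
    intro z hz
    by_contra hno
    push Not at hno
    have h2 : tE S {z} = ∅ := by
      rw [Finset.eq_empty_iff_forall_notMem]
      intro e he
      rw [mem_tE] at he
      obtain ⟨h1, y, hy, hye⟩ := he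
      rw [Finset.mem_singleton] at hy
      subst hy
      obtain ⟨w, rfl⟩ := Sym2.mem_iff_exists.mp hye
      exact hno w h1
    have hZz : ({z} : Finset V) = Z := by
      by_contra hne
      have h1 := hmin {z} (by simpa using hz) (Finset.singleton_nonempty z) hne
      rw [h2, Finset.card_singleton, Finset.card_empty, pow_one, pow_zero, mul_one] at h1
      linarith
    rw [hk, ← hZz, h2, Finset.card_empty] at hkpos
    exact absurd hkpos (lt_irrefl 0)
  -- degrees at least two
  have hdeg : ∀ z ∈ Z, ({z} : Finset V) ≠ Z → 2 ≤ (tE S {z}).card := by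
    intro z hz hne
    have h1 := hmin {z} (by simpa using hz) (Finset.singleton_nonempty z) hne
    rw [Finset.card_singleton, pow_one] at h1
    by_contra hlt
    have h2 : ρ ^ 1 ≤ ρ ^ (tE S {z}).card := pow_le_pow_of_le_one hρ0.le hρ1 (by omega)
    rw [pow_one] at h2
    have h3 : (n : ℝ) * ρ ≤ n * ρ ^ (tE S {z}).card := mul_le_mul_of_nonneg_left h2 hn0.le
    linarith
  -- Z cannot be split
  have hind : ∀ Z₁ ⊆ Z, Z₁.Nonempty → Z₁ ≠ Z → ∃ a ∈ Z₁, ∃ b ∈ Z, b ∉ Z₁ ∧ S.Adj a b := by
    intro Z₁ hZ₁ hne hneq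
    by_contra hno
    push Not at hno
    have hZ₂ne : (Z \ Z₁).Nonempty := by
      rw [Finset.sdiff_nonempty]
      intro h
      exact hneq (Finset.Subset.antisymm hZ₁ h)
    have hZ₂neq : Z \ Z₁ ≠ Z := by
      intro h
      obtain ⟨a, ha⟩ := hne
      have : a ∈ Z \ Z₁ := by rw [h]; exact hZ₁ ha
      exact (Finset.mem_sdiff.mp this).2 ha
    have h1 := hmin Z₁ hZ₁ hne hneq
    have h2 := hmin (Z \ Z₁) Finset.sdiff_subset hZ₂ne hZ₂neq
    have hdisj : Disjoint (tE S Z₁) (tE S (Z \ Z₁)) := by
      rw [Finset.disjoint_left]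
      intro e he he'
      obtain ⟨h1, y, hy, hye⟩ := mem_tE.mp he
      obtain ⟨-, y', hy', hye'⟩ := mem_tE.mp he'
      rw [Finset.mem_sdiff] at hy'
      have hne : y ≠ y' := fun h => hy'.2 (h ▸ hy)
      have := (Sym2.mem_and_mem_iff hne).mp ⟨hye, hye'⟩
      rw [this] at h1
      exact hno y hy y' hy'.1 hy'.2 h1
    have hle : (tE S Z₁).card + (tE S (Z \ Z₁)).card ≤ k := by
      rw [← Finset.card_union_of_disjoint hdisj]
      exact Finset.card_le_card (Finset.union_subset (tE_mono hZ₁) (tE_mono Finset.sdiff_subset))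
    have hZc : Z.card = Z₁.card + (Z \ Z₁).card := by
      rw [Finset.card_sdiff_of_subset hZ₁]
      have := Finset.card_le_card hZ₁
      omega
    have h3 : (n : ℝ) ^ Z.card * ρ ^ k ≤ ((n : ℝ) ^ Z₁.card * ρ ^ (tE S Z₁).card)
        * ((n : ℝ) ^ (Z \ Z₁).card * ρ ^ (tE S (Z \ Z₁)).card) := by
      calc (n : ℝ) ^ Z.card * ρ ^ k
          ≤ (n : ℝ) ^ Z.card * ρ ^ ((tE S Z₁).card + (tE S (Z \ Z₁)).card) := by
            apply mul_le_mul_of_nonneg_left _ (by positivity)
            exact pow_le_pow_of_le_one hρ0.le hρ1 hle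
        _ = _ := by rw [hZc, pow_add, pow_add]; ring
    have h4 : ((n : ℝ) ^ Z₁.card * ρ ^ (tE S Z₁).card)
        * ((n : ℝ) ^ (Z \ Z₁).card * ρ ^ (tE S (Z \ Z₁)).card) < 1 :=
      mul_lt_one_of_nonneg_of_lt_one_left (by positivity) h1 h2.le
    linarith
  have hconn := card_le_iE S Z hZ hind
  have hzk : Z.card ≤ k + 1 :=
    hconn.trans (by have := Finset.card_le_card (iE_subset_tE S Z); omega)
  set t := (bd S Z).card with ht
  have htk : t ≤ k := bd_card_le S Z
  obtain ⟨D, hDQ, hdisj, hcover⟩ := exists_maximal_disjoint Z hZ Q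
  have hDne : D.Nonempty := by
    obtain ⟨φ, hφ⟩ := hQ
    obtain ⟨z, _, h⟩ := hcover φ hφ
    rw [mem_Fim] at h
    obtain ⟨ψ, hψ, -⟩ := h
    exact ⟨ψ, hψ⟩
  obtain ⟨φ₀, h₀⟩ := hDne
  have hembD : ∀ φ ∈ D, IsEmb S H φ := fun φ hφ => hemb φ (hDQ hφ)
  have hagreeD : ∀ φ ∈ D, ∀ φ' ∈ D, ∀ v, v ∉ Z → φ v = φ' v :=
    fun φ hφ φ' hφ' => hagree φ (hDQ hφ) φ' (hDQ hφ')
  -- bound on the size of the disjoint family
  have hUH : ∀ e ∈ Uim S D Z, e ∈ H.edgeSet := by
    intro e he
    rw [mem_Uim] at he
    obtain ⟨φ, hφ, e', he', rfl⟩ := he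
    exact (hembD φ hφ).map_mem (mem_tE.mp he').1
  have hfac : (D.card.factorial : ℝ) ≤ (n : ℝ) ^ t * x ^ D.card := by
    have h1 := sunflower S H Z hZ hcov D hembD hagreeD hdisj
    have h2 := hP _ hUH
    have h3 := Uim_card S H Z D hembD hagreeD hdisj
    have h4 : (supp (Uim S D Z)).card ≤ t + D.card * Z.card := by
      calc _ ≤ ((bd S Z).image φ₀ ∪ Fim D Z).card :=
            Finset.card_le_card (supp_Uim_subset hagreeD h₀)
        _ ≤ ((bd S Z).image φ₀).card + (Fim D Z).card := Finset.card_union_le _ _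
        _ ≤ t + D.card * Z.card := by
            gcongr
            · exact Finset.card_image_le
            · exact Fim_card_le Z D
    calc (D.card.factorial : ℝ) ≤ autc (Uim S D Z) := by exact_mod_cast h1
      _ ≤ (n : ℝ) ^ (supp (Uim S D Z)).card * (ρ * Real.exp (-1)) ^ (Uim S D Z).card := h2
      _ ≤ (n : ℝ) ^ (t + D.card * Z.card) * (ρ * Real.exp (-1)) ^ (D.card * k) := by
          rw [h3]
          apply mul_le_mul_of_nonneg_right (pow_le_pow_right₀ hn' h4); positivity
      _ = (n : ℝ) ^ t * x ^ D.card := by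
          rw [hx, pow_add, mul_pow _ _ D.card, ← pow_mul, ← pow_mul, mul_comm D.card Z.card,
            mul_comm D.card k]
          ring
  have hM := M_bound n hn D.card t x hx0 hfac
  have hMD : 1 ≤ t → (D.card : ℝ) ≤ H.maxDegree := by
    intro h
    obtain ⟨w, hw⟩ := Finset.card_pos.mp h
    obtain ⟨hwZ, y, hy, hadj⟩ := mem_bd.mp hw
    have h1 : D.card ≤ (H.neighborFinset (φ₀ w)).card := by
      apply Finset.card_le_card_of_injOn (fun φ => φ y)
      · intro φ hφ
        rw [Finset.mem_coe, SimpleGraph.mem_neighborFinset, hagreeD φ₀ h₀ φ hφ w hwZ]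
        exact ((hembD φ hφ).2 _ _ hadj).symm
      · intro φ hφ φ' hφ' h
        by_contra hne
        exact (Finset.disjoint_left.mp (hdisj φ hφ φ' hφ' hne)) (Finset.mem_image_of_mem φ hy)
          (by simp only at h; rw [h]; exact Finset.mem_image_of_mem φ' hy)
    have h2 : D.card ≤ H.maxDegree := h1.trans (by
      rw [SimpleGraph.card_neighborFinset_eq_degree]
      exact SimpleGraph.degree_le_maxDegree H _)
    exact_mod_cast h2
  -- the count
  set E : ℝ := Real.exp (L / (2 * l)) with hE
  have hE1 : 1 < E := by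
    rw [hE, Real.one_lt_exp_iff]; positivity
  have hmin2 : min (2 * l) (H.maxDegree : ℝ) ≤ 2 * b := by
    have hle : min l (H.maxDegree : ℝ) ≤ b := by
      refine le_trans (min_le_min_right _ ?_) hb
      have : 0 ≤ L / (n * ρ) := by positivity
      linarith
    rcases min_le_iff.mp hle with h | h
    · exact (min_le_left _ _).trans (by linarith)
    · exact (min_le_right _ _).trans (by linarith)
  have hF : (Q.card : ℝ) ≤ (Z.card : ℝ) ^ 2 * (D.card : ℝ) * (2 * b) ^ (Z.card - 1) := by
    have hsub : Q ⊆ Z.biUnion (fun z => (Fim D Z).biUnion (fun y => Q.filter (fun φ => φ z = y))) := by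
      intro φ hφ
      obtain ⟨z, hz, h⟩ := hcover φ hφ
      rw [Finset.mem_biUnion]
      refine ⟨z, hz, ?_⟩
      rw [Finset.mem_biUnion]
      exact ⟨φ z, h, Finset.mem_filter.mpr ⟨hφ, rfl⟩⟩
    have hone : ∀ z ∈ Z, ∀ y : W,
        ((Q.filter (fun φ => φ z = y)).card : ℝ) ≤ (2 * b) ^ (Z.card - 1) := by
      intro z hz y
      have hne' : ∀ Y' ⊆ Z.erase z, Y' ≠ Z := by
        intro Y' hY' h
        rw [h] at hY'
        exact (Finset.notMem_erase z Z) (hY' hz)
      have h1 := family_card_le' S H n hn (ρ * Real.exp (-1)) E (2 * l) (by positivity) hE1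
        (rE_le n hn ρ hρ0 hρ1 hl) (by rw [hE, Real.log_exp]; field_simp; exact le_refl _)
        (by positivity) hP1 (Z.card - 1) (Z.erase z) (Finset.card_erase_of_mem hz)
        (by
          intro Y' hY' hne
          have h2 := hmin Y' (hY'.trans (Finset.erase_subset _ _)) hne (hne' Y' hY')
          refine lt_of_le_of_lt ?_ h2
          apply mul_le_mul_of_nonneg_left _ (by positivity)
          apply pow_le_pow_left₀ (by positivity)
          have : Real.exp (-1) ≤ 1 := by rw [Real.exp_le_one_iff]; norm_num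
          nlinarith)
        (by
          intro Y₂ hY₂ Y' hY' hne
          have hY'e := hY'.trans hY₂
          have h2 := hmin Y' (hY'e.trans (Finset.erase_subset _ _)) hne (hne' Y' hY'e)
          refine piece_le S Y₂ Y' hY' n hn ρ hρ0 hl h2.le ?_
          intro y hy
          apply hdeg y ((Finset.erase_subset _ _) (hY'e hy))
          apply hne'
          rw [Finset.singleton_subset_iff]
          exact hY'e hy)
        (Q.filter (fun φ => φ z = y))
        (fun φ hφ => hemb φ (Finset.mem_filter.mp hφ).1)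
        (by
          intro φ hφ φ' hφ' v hv
          rw [Finset.mem_filter] at hφ hφ'
          by_cases hvz : v = z
          · rw [hvz, hφ.2, hφ'.2]
          · exact hagree φ hφ.1 φ' hφ'.1 v (fun h => hv (Finset.mem_erase.mpr ⟨hvz, h⟩)))
      exact h1.trans (pow_le_pow_left₀ (le_min (by positivity) (Nat.cast_nonneg _)) hmin2 _)
    calc (Q.card : ℝ) ≤ ((Z.biUnion (fun z => (Fim D Z).biUnion
            (fun y => Q.filter (fun φ => φ z = y)))).card : ℝ) := by
          exact_mod_cast Finset.card_le_card hsub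
      _ ≤ ∑ z ∈ Z, ∑ y ∈ Fim D Z, ((Q.filter (fun φ => φ z = y)).card : ℝ) := by
          have h1 : (Z.biUnion (fun z => (Fim D Z).biUnion
            (fun y => Q.filter (fun φ => φ z = y)))).card
              ≤ ∑ z ∈ Z, ∑ y ∈ Fim D Z, (Q.filter (fun φ => φ z = y)).card :=
            Finset.card_biUnion_le.trans (Finset.sum_le_sum (fun z _ => Finset.card_biUnion_le))
          exact_mod_cast h1
      _ ≤ ∑ z ∈ Z, ∑ y ∈ Fim D Z, (2 * b) ^ (Z.card - 1) :=
          Finset.sum_le_sum (fun z hz => Finset.sum_le_sum (fun y _ => hone z hz y))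
      _ = (Z.card : ℝ) * ((Fim D Z).card * (2 * b) ^ (Z.card - 1)) := by
          simp only [Finset.sum_const, nsmul_eq_mul]
      _ ≤ (Z.card : ℝ) * (((D.card * Z.card : ℕ) : ℝ) * (2 * b) ^ (Z.card - 1)) := by
          apply mul_le_mul_of_nonneg_left _ (Nat.cast_nonneg _)
          apply mul_le_mul_of_nonneg_right _ (by positivity)
          exact_mod_cast Fim_card_le Z D
      _ = _ := by push_cast; ring
  set y : ℝ := (n : ℝ) ^ Z.card * ρ ^ k with hy
  have hyx : y ≤ Real.exp 1 ^ k * x := by
    refine le_of_eq ?_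
    rw [hx, hy, mul_pow, Real.exp_neg, inv_pow]
    have : Real.exp 1 ^ k ≠ 0 := by positivity
    field_simp
  have hbz : b ^ Z.card ≤ (b ^ α) ^ k * y := by
    have h := pow_le_rpow n hn ρ hρ0 α hα b hb1 hbn Z.card k
    rw [max_eq_right hlik] at h
    exact h
  have hbz1 : b ^ (Z.card - 1) ≤ (b ^ α) ^ k := by
    obtain ⟨z, hz⟩ := hZ
    have h := pow_le_rpow n hn ρ hρ0 α hα b hb1 hbn (Z.card - 1) (tE S (Z.erase z)).card
    have h2 : (n : ℝ) ^ (Z.card - 1) * ρ ^ (tE S (Z.erase z)).card ≤ 1 := by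
      by_cases hne : (Z.erase z).Nonempty
      · have h3 := hmin (Z.erase z) (Finset.erase_subset _ _) hne (by
          intro h; exact (Finset.notMem_erase z Z) (by rw [h]; exact hz))
        rw [Finset.card_erase_of_mem hz] at h3
        exact h3.le
      · rw [Finset.not_nonempty_iff_eq_empty] at hne
        have h3 : Z.card - 1 = 0 := by rw [← Finset.card_erase_of_mem hz, hne, Finset.card_empty]
        rw [h3, pow_zero, one_mul]
        exact pow_le_one₀ hρ0.le hρ1
    rw [max_eq_left h2, mul_one] at h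
    exact h.trans (pow_le_pow_right₀ hB1 (Finset.card_le_card (tE_mono (Finset.erase_subset _ _))))
  apply final_bound' k Z.card hkpos (Finset.card_pos.mpr hZ) hzk b (b ^ α) x y D.card Q.card
    hb1 hB1 hx0 hyx (Nat.cast_nonneg _) hbz1 hbz ?_ hF
  rcases le_max_iff.mp hM with hM' | hM'
  · exact Or.inl hM'
  rcases Nat.eq_zero_or_pos t with ht0 | htpos
  · left
    rw [ht0, Nat.cast_zero, zero_mul] at hM'
    exact hM'.trans (by positivity)
  have hMD' := hMD htpos
  have hkR : (1 : ℝ) ≤ k := by exact_mod_cast hkpos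
  have htk' : (t : ℝ) ≤ k := by exact_mod_cast htk
  have hylog : 0 ≤ (Z.card : ℝ) * L + k * (l - L) := by
    have h := Real.log_nonneg hlik
    rw [Real.log_mul (by positivity) (by positivity), Real.log_pow, Real.log_pow, hlρ] at h
    exact h
  rcases Nat.lt_or_ge 1 Z.card with hz2 | hz1
  · -- at least two vertices
    right; left
    have hdeg' : ∀ z ∈ Z, 2 ≤ (tE S {z}).card := by
      intro z hz
      apply hdeg z hz
      intro h
      rw [← h, Finset.card_singleton] at hz2
      omega
    have h1 := out_le S Z hdeg'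
    have h2 : 1 ≤ (bE S Z Z).card := by
      obtain ⟨w, hw⟩ := Finset.card_pos.mp htpos
      obtain ⟨hwZ, y, hy, hadj⟩ := mem_bd.mp hw
      apply Finset.card_pos.mpr
      exact ⟨s(y, w), mem_bE.mpr ⟨mem_tE.mpr ⟨hadj, y, hy, Sym2.mem_mk_left _ _⟩, w,
        Sym2.mem_mk_right _ _, hwZ⟩⟩
    have h3 : Z.card + 1 ≤ k := by omega
    have h3' : (Z.card : ℝ) + 1 ≤ k := by exact_mod_cast h3
    have h4 : L ≤ k * l := by nlinarith
    have h5 : (D.card : ℝ) ≤ (k : ℝ) ^ 2 * l := by
      calc (D.card : ℝ) ≤ t * L := hM'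
        _ ≤ k * (k * l) := mul_le_mul htk' h4 hL.le (by positivity)
        _ = _ := by ring
    have h6 : (1 : ℝ) ≤ (k : ℝ) ^ 2 := one_le_pow₀ hkR
    have h7 : min l (H.maxDegree : ℝ) ≤ b := by
      refine le_trans (min_le_min_right _ ?_) hb
      have : 0 ≤ L / (n * ρ) := by positivity
      linarith
    rcases min_le_iff.mp h7 with h | h
    · calc (D.card : ℝ) ≤ (k : ℝ) ^ 2 * l := h5
        _ ≤ (k : ℝ) ^ 2 * (2 * b) := by
            apply mul_le_mul_of_nonneg_left _ (by positivity); linarith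
    · calc (D.card : ℝ) ≤ H.maxDegree := hMD'
        _ ≤ b := h
        _ ≤ (k : ℝ) ^ 2 * (2 * b) := by nlinarith
  · -- one vertex
    have hz1' : Z.card = 1 := by
      have := Finset.card_pos.mpr hZ
      omega
    rcases Nat.lt_or_ge 1 k with hk2 | hk1
    · right; left
      have hk2' : (2 : ℝ) ≤ k := by exact_mod_cast hk2
      have h1 : L ≤ 2 * l := by
        rw [hz1', Nat.cast_one, one_mul] at hylog
        have h2 : l - L ≤ 0 := by
          rw [← hlρ]; exact Real.log_nonpos hρ0.le hρ1
        nlinarith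
      have h3 : (D.card : ℝ) ≤ k * (2 * l) :=
        hM'.trans (mul_le_mul htk' h1 hL.le (by positivity))
      have h7 : min l (H.maxDegree : ℝ) ≤ b := by
        refine le_trans (min_le_min_right _ ?_) hb
        have : 0 ≤ L / (n * ρ) := by positivity
        linarith
      rcases min_le_iff.mp h7 with h | h
      · calc (D.card : ℝ) ≤ k * (2 * l) := h3
          _ ≤ k * (2 * b) := by
              apply mul_le_mul_of_nonneg_left _ (by positivity); linarith
          _ ≤ (k : ℝ) ^ 2 * (2 * b) := by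
              apply mul_le_mul_of_nonneg_right _ (by positivity); nlinarith
      · calc (D.card : ℝ) ≤ H.maxDegree := hMD'
          _ ≤ b := h
          _ ≤ (k : ℝ) ^ 2 * (2 * b) := by nlinarith [one_le_pow₀ hkR (n := 2)]
    · right; right
      have hk1' : k = 1 := by omega
      refine ⟨hz1', hk1', ?_⟩
      have ht1 : (t : ℝ) ≤ 1 := by rw [hk1'] at htk'; exact_mod_cast htk'
      have h1 : (D.card : ℝ) ≤ L := by
        refine hM'.trans ?_
        nlinarith
      have h2 := leaf_bound n hn ρ hρ0 hl α hα0 hα1 hα b H.maxDegree D.card hb1 hbn hb h1 hMD'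
      rw [hy, hz1', hk1', pow_one, pow_one]
      exact h2

end Zset

section main

variable {W : Type} [Fintype W]

/-- **Counting embeddings.** -/
theorem embF_card_le' (H : SimpleGraph W)
    (n : ℕ) (hn : 2 ≤ n) (hWn : Fintype.card W ≤ n) (ρ : ℝ) (hρ0 : 0 < ρ) (hρ1 : ρ ≤ 1)
    (hl : 1 ≤ Real.log (n * ρ)) (α : ℝ) (hα0 : 0 < α) (hα1 : α ≤ 1)
    (hα : -(α * Real.log n) ≤ Real.log ρ)
    (hP : ∀ U : Finset (Sym2 W), (∀ e ∈ U, e ∈ H.edgeSet) →
      (autc U : ℝ) ≤ (n : ℝ) ^ (supp U).card * (ρ * Real.exp (-1)) ^ U.card)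
    (b : ℝ) (hb1 : 1 ≤ b) (hbn : b ≤ n)
    (hb : min (Real.log (n * ρ) + Real.log n / (n * ρ)) (H.maxDegree : ℝ) ≤ b) :
    ∀ (m : ℕ) (V : Type) [Fintype V] (S : SimpleGraph V), Fintype.card V = m →
      ((embF S H).card : ℝ) ≤ (256 * b ^ α * (ρ * Real.exp (-1))) ^ (eF S).card * (n : ℝ) ^ m := by
  have hn' : (1 : ℝ) ≤ n := by exact_mod_cast (by omega : 1 ≤ n)
  have hn0 : (0 : ℝ) < n := by linarith
  have hb0 : 0 < b := by linarith
  intro m
  induction m using Nat.strong_induction_on with
  | _ m ih =>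
    intro V _ S hV
    by_cases hne : (embF S H).Nonempty
    swap
    · rw [Finset.not_nonempty_iff_eq_empty] at hne
      rw [hne, Finset.card_empty, Nat.cast_zero]
      positivity
    rcases Nat.eq_zero_or_pos m with hm | hm
    · -- no vertices
      subst hm
      have hemp : IsEmpty V := Fintype.card_eq_zero_iff.mp hV
      have h1 : (eF S).card = 0 := by
        rw [Finset.card_eq_zero, Finset.eq_empty_iff_forall_notMem]
        intro e
        induction e using Sym2.ind with
        | _ a b => exact hemp.elim a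
      have h2 : (embF S H).card ≤ 1 := by
        rw [Finset.card_le_one]
        intro a _ b _
        exact Subsingleton.elim a b
      rw [h1, pow_zero, pow_zero, mul_one]
      exact_mod_cast h2
    have hVne : Nonempty V := by
      rw [← Fintype.card_pos_iff]; omega
    -- the whole vertex set is likely
    obtain ⟨φ₀, h₀⟩ := hne
    rw [mem_embF] at h₀
    have huniv : 1 ≤ (n : ℝ) ^ (Finset.univ : Finset V).card * ρ ^ (tE S Finset.univ).card := by
      set U : Finset (Sym2 W) := (tE S Finset.univ).image (Sym2.map φ₀) with hU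
      have hUH : ∀ e ∈ U, e ∈ H.edgeSet := by
        intro e he
        rw [hU, Finset.mem_image] at he
        obtain ⟨e', he', rfl⟩ := he
        exact h₀.map_mem (mem_tE.mp he').1
      have h1 := hP U hUH
      have h2 : (1 : ℝ) ≤ autc U := by exact_mod_cast one_le_autc U
      have h3 : U.card = (tE S Finset.univ).card :=
        Finset.card_image_of_injective _ (Sym2.map.injective h₀.1)
      have h4 : (supp U).card ≤ (Finset.univ : Finset V).card := by
        calc (supp U).card ≤ ((Finset.univ : Finset V).image φ₀).card := by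
              apply Finset.card_le_card
              intro w hw
              rw [mem_supp] at hw
              obtain ⟨e, he, hwe⟩ := hw
              rw [hU, Finset.mem_image] at he
              obtain ⟨e', -, rfl⟩ := he
              rw [Sym2.mem_map] at hwe
              obtain ⟨v, -, rfl⟩ := hwe
              exact Finset.mem_image_of_mem _ (Finset.mem_univ _)
          _ ≤ _ := Finset.card_image_le
      have he1 : Real.exp (-1) ≤ 1 := by
        rw [Real.exp_le_one_iff]; norm_num
      calc (1 : ℝ) ≤ autc U := h2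
        _ ≤ (n : ℝ) ^ (supp U).card * (ρ * Real.exp (-1)) ^ U.card := h1
        _ ≤ (n : ℝ) ^ (Finset.univ : Finset V).card * ρ ^ (tE S Finset.univ).card := by
            rw [h3]
            apply mul_le_mul (pow_le_pow_right₀ hn' h4) _ (by positivity) (by positivity)
            apply pow_le_pow_left₀ (by positivity)
            nlinarith
    -- a minimal likely set
    set C : Finset (Finset V) := Finset.univ.filter (fun Z => Z.Nonempty ∧
      1 ≤ (n : ℝ) ^ Z.card * ρ ^ (tE S Z).card) with hC
    have hCne : C.Nonempty := ⟨Finset.univ, by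
      rw [hC, Finset.mem_filter]
      exact ⟨Finset.mem_univ _, Finset.univ_nonempty, huniv⟩⟩
    obtain ⟨Z, hZC, hZmin⟩ := Finset.exists_min_image C Finset.card hCne
    rw [hC, Finset.mem_filter] at hZC
    obtain ⟨-, hZne, hZlik⟩ := hZC
    have hmin : ∀ Z' ⊆ Z, Z'.Nonempty → Z' ≠ Z →
        (n : ℝ) ^ Z'.card * ρ ^ (tE S Z').card < 1 := by
      intro Z' hZ' hne hneq
      by_contra hcon
      push Not at hcon
      have hin : Z' ∈ C := by
        rw [hC, Finset.mem_filter]
        exact ⟨Finset.mem_univ _, hne, hcon⟩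
      have h1 := hZmin Z' hin
      have h2 := Finset.card_lt_card (Finset.ssubset_iff_subset_ne.mpr ⟨hZ', hneq⟩)
      omega
    -- restriction
    set V' := {v : V | v ∉ Z} with hV'
    set S' := S.induce V' with hS'
    set res : (V → W) → (V' → W) := fun φ v => φ v.1 with hres
    have hV'card : Fintype.card V' = m - Z.card := by
      rw [← hV]
      have : Fintype.card V' = (Finset.univ.filter (fun v => v ∉ Z)).card := by
        rw [← Fintype.card_subtype]
        rfl
      rw [this, Finset.filter_notMem_eq_sdiff, Finset.card_sdiff_of_subset (Finset.subset_univ _),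
        Finset.card_univ]
    have hZpos : 0 < Z.card := Finset.card_pos.mpr hZne
    have hZm : Z.card ≤ m := by
      rw [← hV, ← Finset.card_univ]; exact Finset.card_le_card (Finset.subset_univ _)
    have hih := ih (m - Z.card) (by omega) V' S' hV'card
    have hfib : ∀ ψ ∈ (embF S H).image res, (((embF S H).filter (fun φ => res φ = ψ)).card : ℝ)
        ≤ (256 * b ^ α) ^ (tE S Z).card
          * ((n : ℝ) ^ Z.card * (ρ * Real.exp (-1)) ^ (tE S Z).card) := by
      intro ψ _
      apply Z_family' S H n hn hWn ρ hρ0 hρ1 hl α hα0 hα1 hα hP b hb1 hbn hb Z hZne hZlik hmin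
      · intro φ hφ
        exact mem_embF.mp (Finset.mem_filter.mp hφ).1
      · intro φ hφ φ' hφ' v hv
        have h1 := (Finset.mem_filter.mp hφ).2
        have h2 := (Finset.mem_filter.mp hφ').2
        rw [← h2] at h1
        exact congrFun h1 ⟨v, hv⟩
    have himg : (embF S H).image res ⊆ embF S' H := by
      intro ψ hψ
      rw [Finset.mem_image] at hψ
      obtain ⟨φ, hφ, rfl⟩ := hψ
      rw [mem_embF] at hφ ⊢
      refine ⟨fun a b h => Subtype.ext (hφ.1 h), fun a b h => hφ.2 _ _ h⟩
    have hcard : ((embF S H).card : ℝ) = ∑ ψ ∈ (embF S H).image res,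
        (((embF S H).filter (fun φ => res φ = ψ)).card : ℝ) := by
      rw [Finset.card_eq_sum_card_image res (embF S H)]
      push_cast
      rfl
    rw [hcard]
    calc _ ≤ ∑ ψ ∈ (embF S H).image res, (256 * b ^ α) ^ (tE S Z).card
          * ((n : ℝ) ^ Z.card * (ρ * Real.exp (-1)) ^ (tE S Z).card) := Finset.sum_le_sum hfib
      _ = (((embF S H).image res).card : ℝ) * ((256 * b ^ α) ^ (tE S Z).card
          * ((n : ℝ) ^ Z.card * (ρ * Real.exp (-1)) ^ (tE S Z).card)) := by
          rw [Finset.sum_const, nsmul_eq_mul]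
      _ ≤ ((256 * b ^ α * (ρ * Real.exp (-1))) ^ (eF S').card * (n : ℝ) ^ (m - Z.card))
          * ((256 * b ^ α) ^ (tE S Z).card
          * ((n : ℝ) ^ Z.card * (ρ * Real.exp (-1)) ^ (tE S Z).card)) := by
          apply mul_le_mul_of_nonneg_right _ (by positivity)
          refine le_trans ?_ hih
          exact_mod_cast Finset.card_le_card himg
      _ = (256 * b ^ α * (ρ * Real.exp (-1))) ^ (eF S).card * (n : ℝ) ^ m := by
          rw [eF_split S Z, pow_add]
          have : (n : ℝ) ^ m = (n : ℝ) ^ (m - Z.card) * (n : ℝ) ^ Z.card := by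
            rw [← pow_add]; congr 1; omega
          rw [this, mul_pow (256 * b ^ α) (ρ * Real.exp (-1)) (tE S Z).card]
          ring

end main

end Pool.Agent.TH644.KD
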