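import Pool.Agent.TH644.KD.Piece

/-!
# Numerical lemmas
-/

set_option autoImplicit false
set_option linter.unusedSectionVars false

namespace Pool.Agent.TH644.KD

open Finset
open scoped Classical
open Pool.Agent.TH965.Emb

/-- Conversion of a loss per vertex into a loss per edge. -/
lemma pow_le_rpow (n : ℕ) (hn : 2 ≤ n) (ρ : ℝ) (hρ0 : 0 < ρ) (α : ℝ)
    (hα : -(α * Real.log n) ≤ Real.log ρ) (b : ℝ) (hb1 : 1 ≤ b) (hbn : b ≤ n) (a k : ℕ) :
    b ^ a ≤ (b ^ α) ^ k * max 1 ((n : ℝ) ^ a * ρ ^ k) := by
  have hn0 : (0 : ℝ) < n := by exact_mod_cast (by omega : 0 < n)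
  have hL : 0 < Real.log n := Real.log_pos (by exact_mod_cast (by omega : 1 < n))
  have hb0 : 0 < b := by linarith
  set L := Real.log n with hLdef
  set q := Real.log b with hq
  have hq0 : 0 ≤ q := Real.log_nonneg hb1
  have hqL : q ≤ L := Real.log_le_log hb0 hbn
  set y : ℝ := (n : ℝ) ^ a * ρ ^ k with hy
  have hy0 : 0 < y := by positivity
  have hlogy : Real.log y = a * L + k * Real.log ρ := by
    rw [hy, Real.log_mul (by positivity) (by positivity), Real.log_pow, Real.log_pow]
  have h1 : (a : ℝ) * q - α * k * q ≤ max 0 (Real.log y) := by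
    have h2 : (a : ℝ) * L - α * k * L ≤ Real.log y := by
      rw [hlogy]
      have : (k : ℝ) * (-(α * L)) ≤ k * Real.log ρ :=
        mul_le_mul_of_nonneg_left hα (Nat.cast_nonneg k)
      linarith
    have h3 : (a : ℝ) * q - α * k * q = (q / L) * ((a : ℝ) * L - α * k * L) := by
      field_simp
    rw [h3]
    have hqL' : q / L ≤ 1 := by rw [div_le_one hL]; exact hqL
    have hqL0 : 0 ≤ q / L := by positivity
    calc (q / L) * ((a : ℝ) * L - α * k * L) ≤ (q / L) * Real.log y :=
          mul_le_mul_of_nonneg_left h2 hqL0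
      _ ≤ max 0 (Real.log y) := by
          rcases le_total 0 (Real.log y) with h | h
          · rw [max_eq_right h]; nlinarith
          · rw [max_eq_left h]; nlinarith
  have h4 : max 1 y = Real.exp (max 0 (Real.log y)) := by
    rcases le_total 0 (Real.log y) with h | h
    · rw [max_eq_right h, Real.exp_log hy0, max_eq_right]
      have := Real.exp_le_exp.mpr h
      rw [Real.exp_zero, Real.exp_log hy0] at this
      exact this
    · rw [max_eq_left h, Real.exp_zero, max_eq_left]
      have := Real.exp_le_exp.mpr h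
      rw [Real.exp_zero, Real.exp_log hy0] at this
      exact this
  have h5 : b ^ a = Real.exp (a * q) := by
    rw [← Real.log_pow, Real.exp_log (by positivity)]
  have h6 : (b ^ α) ^ k = Real.exp (α * k * q) := by
    rw [Real.rpow_def_of_pos hb0, ← Real.exp_nat_mul]
    congr 1
    rw [← hq]; ring
  rw [h4, h5, h6, ← Real.exp_add, Real.exp_le_exp]
  linarith

/-- The case of a leaf. -/
lemma leaf_bound (n : ℕ) (hn : 2 ≤ n) (ρ : ℝ) (hρ0 : 0 < ρ)
    (hl : 1 ≤ Real.log (n * ρ)) (α : ℝ) (hα0 : 0 < α) (hα1 : α ≤ 1)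
    (hα : -(α * Real.log n) ≤ Real.log ρ) (b D M : ℝ) (hb1 : 1 ≤ b) (hbn : b ≤ n)
    (hb : min (Real.log (n * ρ) + Real.log n / (n * ρ)) D ≤ b)
    (hM : M ≤ Real.log n) (hMD : M ≤ D) : M ≤ 2 * b ^ α * (n * ρ) := by
  have hn0 : (0 : ℝ) < n := by exact_mod_cast (by omega : 0 < n)
  have hL : 0 < Real.log n := Real.log_pos (by exact_mod_cast (by omega : 1 < n))
  have hb0 : 0 < b := by linarith
  set L := Real.log n with hLdef
  set lam : ℝ := n * ρ with hlam
  set l := Real.log lam with hldef
  have hlam0 : 0 < lam := by positivity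
  have hlame : Real.exp 1 ≤ lam := by
    rw [← Real.exp_log hlam0]
    exact Real.exp_le_exp.mpr hl
  have he2 : (2 : ℝ) ≤ Real.exp 1 := by
    have := Real.add_one_le_exp (1 : ℝ); linarith
  have hlam1 : 1 ≤ lam := by linarith
  have hbα1 : 1 ≤ b ^ α := Real.one_le_rpow hb1 hα0.le
  have hlρ : Real.log ρ = l - L := by
    rw [hldef, hlam, Real.log_mul hn0.ne' hρ0.ne']; ring
  have hαl : (1 - α) * L ≤ l := by
    rw [hlρ] at hα; linarith
  rcases min_le_iff.mp hb with hg | hD
  · -- b is at least l + L / lam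
    rcases le_total L lam with hLl | hlL
    · calc M ≤ L := hM
        _ ≤ lam := hLl
        _ ≤ 2 * b ^ α * lam := by nlinarith
    · -- lam ≤ L
      have hL1 : 1 ≤ L := by linarith
      have h1 : L / lam ≤ b := by
        have : 0 ≤ l := by linarith
        linarith
      have h2 : (L / lam) ^ α ≤ b ^ α := Real.rpow_le_rpow (by positivity) h1 hα0.le
      have h3 : L ≤ 2 * ((L / lam) ^ α * lam) := by
        have e1 : (L / lam) ^ α * lam = Real.exp (α * (Real.log L - l) + l) := by
          rw [Real.exp_add, Real.rpow_def_of_pos (by positivity),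
            Real.log_div (by positivity) (by positivity), Real.exp_log hlam0]
          congr 2
          ring
        have hlL' : l ≤ Real.log L := Real.log_le_log hlam0 hlL
        -- (1 - α) log L ≤ log 2
        have h4 : (1 - α) * Real.log L ≤ 4 / Real.exp 1 ^ 2 := by
          have h5 : Real.log L ≤ 2 * (Real.sqrt L / Real.exp 1) := by
            have hs : 0 < Real.sqrt L := Real.sqrt_pos.mpr (by linarith)
            have h6 : Real.log (Real.sqrt L / Real.exp 1) ≤ Real.sqrt L / Real.exp 1 - 1 :=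
              Real.log_le_sub_one_of_pos (by positivity)
            rw [Real.log_div hs.ne' (Real.exp_pos 1).ne', Real.log_exp] at h6
            have h7 : Real.log L = 2 * Real.log (Real.sqrt L) := by
              rw [Real.log_sqrt (by linarith)]; ring
            rw [h7]
            linarith
          have h8 : 0 ≤ Real.log L := Real.log_nonneg hL1
          have h9 : (1 - α) * L ≤ Real.log L := hαl.trans hlL'
          have h10 : 0 ≤ 1 - α := by linarith
          have h11 : (1 - α) * Real.log L * L ≤ 4 / Real.exp 1 ^ 2 * L := by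
            calc (1 - α) * Real.log L * L = ((1 - α) * L) * Real.log L := by ring
              _ ≤ Real.log L * Real.log L := mul_le_mul_of_nonneg_right h9 h8
              _ ≤ (2 * (Real.sqrt L / Real.exp 1)) * (2 * (Real.sqrt L / Real.exp 1)) :=
                  mul_le_mul h5 h5 h8 (by positivity)
              _ = 4 / Real.exp 1 ^ 2 * (Real.sqrt L * Real.sqrt L) := by field_simp; ring
              _ = 4 / Real.exp 1 ^ 2 * L := by rw [Real.mul_self_sqrt (by linarith)]
          exact le_of_mul_le_mul_right h11 (by linarith)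
        have h12 : 4 / Real.exp 1 ^ 2 ≤ Real.log 2 := by
          have h13 := Real.exp_one_gt_d9
          have h14 := Real.log_two_gt_d9
          rw [div_le_iff₀ (by positivity)]
          have : (2.7182818283 : ℝ) ^ 2 ≤ Real.exp 1 ^ 2 :=
            pow_le_pow_left₀ (by norm_num) h13.le 2
          nlinarith
        have h15 : L = Real.exp (Real.log L) := (Real.exp_log (by linarith)).symm
        have h16 : (2 : ℝ) = Real.exp (Real.log 2) := (Real.exp_log (by norm_num)).symm
        rw [e1]
        calc L = Real.exp (Real.log L) := h15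
          _ ≤ Real.exp (Real.log 2 + (α * (Real.log L - l) + l)) := by
              rw [Real.exp_le_exp]
              nlinarith [mul_nonneg (sub_nonneg.mpr hα1) (by linarith : (0 : ℝ) ≤ l)]
          _ = 2 * Real.exp (α * (Real.log L - l) + l) := by
              rw [Real.exp_add, Real.exp_log (by norm_num)]
      calc M ≤ L := hM
        _ ≤ 2 * ((L / lam) ^ α * lam) := h3
        _ ≤ 2 * (b ^ α * lam) := by
            apply mul_le_mul_of_nonneg_left _ (by norm_num)
            exact mul_le_mul_of_nonneg_right h2 hlam0.le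
        _ = 2 * b ^ α * lam := by ring
  · -- b is at least D
    have h1 := pow_le_rpow n hn ρ hρ0 α hα b hb1 hbn 1 1
    rw [pow_one, pow_one, pow_one, pow_one] at h1
    rw [max_eq_right (by rw [← hlam]; exact hlam1)] at h1
    calc M ≤ D := hMD
      _ ≤ b := hD
      _ ≤ b ^ α * lam := h1
      _ ≤ 2 * b ^ α * lam := by nlinarith [mul_nonneg (by linarith : (0 : ℝ) ≤ b ^ α) hlam0.le]

/-- Final numerical estimate. -/
lemma final_bound' (k z : ℕ) (hk : 1 ≤ k) (hz : 1 ≤ z) (hzk : z ≤ k + 1)
    (b B x y M F : ℝ) (hb1 : 1 ≤ b) (hB1 : 1 ≤ B) (hx : 0 < x)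
    (hyx : y ≤ Real.exp 1 ^ k * x) (hM0 : 0 ≤ M)
    (hbz1 : b ^ (z - 1) ≤ B ^ k) (hbz : b ^ z ≤ B ^ k * y)
    (hM : M ≤ Real.exp 2 * x ∨ M ≤ (k : ℝ) ^ 2 * (2 * b) ∨ (z = 1 ∧ k = 1 ∧ M ≤ 2 * B * y))
    (hF : F ≤ z ^ 2 * M * (2 * b) ^ (z - 1)) : F ≤ (256 * B) ^ k * x := by
  have hb0 : 0 < b := by linarith
  have hB0 : 0 < B := by linarith
  have he2 := exp_two_lt_eight
  have he1 := exp_one_lt_three
  have hkp : (k : ℝ) ≤ 2 ^ k := by exact_mod_cast Nat.lt_two_pow_self.le
  have hk1 : (k : ℝ) + 1 ≤ 2 ^ k := by exact_mod_cast Nat.succ_le_of_lt (Nat.lt_two_pow_self (n := k))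
  have hzk' : (z : ℝ) ≤ 2 ^ k := by
    have : (z : ℝ) ≤ k + 1 := by exact_mod_cast hzk
    linarith
  have hz2 : (z : ℝ) ^ 2 ≤ 4 ^ k := by
    calc (z : ℝ) ^ 2 ≤ (2 ^ k) ^ 2 := pow_le_pow_left₀ (by positivity) hzk' 2
      _ = 4 ^ k := by rw [← pow_mul, mul_comm k 2, pow_mul]; norm_num
  have hk2 : (k : ℝ) ^ 2 ≤ 4 ^ k := by
    calc (k : ℝ) ^ 2 ≤ (2 ^ k) ^ 2 := pow_le_pow_left₀ (by positivity) hkp 2
      _ = 4 ^ k := by rw [← pow_mul, mul_comm k 2, pow_mul]; norm_num
  have he3 : Real.exp 1 ^ k ≤ 3 ^ k := pow_le_pow_left₀ (Real.exp_pos _).le he1.le k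
  have h8k : (8 : ℝ) ≤ 8 ^ k := by
    calc (8 : ℝ) = 8 ^ 1 := (pow_one _).symm
      _ ≤ 8 ^ k := pow_le_pow_right₀ (by norm_num) hk
  have h2z : (2 : ℝ) ^ (z - 1) ≤ 2 ^ k := pow_le_pow_right₀ (by norm_num) (by omega)
  rcases hM with hM | hM | ⟨hz1, hk1', hM⟩
  · calc F ≤ z ^ 2 * M * (2 * b) ^ (z - 1) := hF
      _ ≤ 4 ^ k * (8 ^ k * x) * (2 ^ k * B ^ k) := by
          apply mul_le_mul
          · apply mul_le_mul hz2 _ hM0 (by positivity)
            refine hM.trans ?_
            apply mul_le_mul_of_nonneg_right _ hx.le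
            linarith
          · rw [mul_pow]
            exact mul_le_mul h2z hbz1 (by positivity) (by positivity)
          · positivity
          · positivity
      _ = (64 : ℝ) ^ k * B ^ k * x := by
          have : (64 : ℝ) ^ k = 4 ^ k * 8 ^ k * 2 ^ k := by rw [← mul_pow, ← mul_pow]; norm_num
          rw [this]; ring
      _ ≤ (256 : ℝ) ^ k * B ^ k * x := by
          apply mul_le_mul_of_nonneg_right _ hx.le
          apply mul_le_mul_of_nonneg_right _ (by positivity)
          exact pow_le_pow_left₀ (by norm_num) (by norm_num) k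
      _ = (256 * B) ^ k * x := by rw [mul_pow]
  · have hbb : b * b ^ (z - 1) = b ^ z := by
      rw [← pow_succ', Nat.sub_add_cancel hz]
    have h22 : (2 : ℝ) * 2 ^ (z - 1) ≤ 4 ^ k := by
      have h1 : (2 : ℝ) * 2 ^ (z - 1) = 2 ^ z := by rw [← pow_succ', Nat.sub_add_cancel hz]
      rw [h1]
      calc (2 : ℝ) ^ z ≤ 2 ^ (2 * k) := pow_le_pow_right₀ (by norm_num) (by omega)
        _ = 4 ^ k := by rw [pow_mul]; norm_num
    calc F ≤ z ^ 2 * M * (2 * b) ^ (z - 1) := hF
      _ ≤ 4 ^ k * (4 ^ k * (2 * b)) * (2 ^ (z - 1) * b ^ (z - 1)) := by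
          rw [mul_pow]
          apply mul_le_mul_of_nonneg_right _ (by positivity)
          apply mul_le_mul hz2 _ hM0 (by positivity)
          refine hM.trans ?_
          exact mul_le_mul_of_nonneg_right hk2 (by positivity)
      _ = 4 ^ k * 4 ^ k * (2 * 2 ^ (z - 1)) * (b * b ^ (z - 1)) := by ring
      _ ≤ 4 ^ k * 4 ^ k * 4 ^ k * (B ^ k * (3 ^ k * x)) := by
          rw [hbb]
          apply mul_le_mul
          · apply mul_le_mul_of_nonneg_left h22; positivity
          · refine hbz.trans ?_
            apply mul_le_mul_of_nonneg_left _ (by positivity)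
            refine hyx.trans ?_
            exact mul_le_mul_of_nonneg_right he3 hx.le
          · positivity
          · positivity
      _ = (192 : ℝ) ^ k * B ^ k * x := by
          have : (192 : ℝ) ^ k = 4 ^ k * 4 ^ k * 4 ^ k * 3 ^ k := by
            rw [← mul_pow, ← mul_pow, ← mul_pow]; norm_num
          rw [this]; ring
      _ ≤ (256 : ℝ) ^ k * B ^ k * x := by
          apply mul_le_mul_of_nonneg_right _ hx.le
          apply mul_le_mul_of_nonneg_right _ (by positivity)
          exact pow_le_pow_left₀ (by norm_num) (by norm_num) k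
      _ = (256 * B) ^ k * x := by rw [mul_pow]
  · subst hz1
    subst hk1'
    simp only [Nat.cast_one, one_pow, one_mul, Nat.sub_self, pow_zero, mul_one, pow_one] at hF hyx ⊢
    calc F ≤ M := hF
      _ ≤ 2 * B * y := hM
      _ ≤ 2 * B * (3 * x) := by
          apply mul_le_mul_of_nonneg_left _ (by positivity)
          refine hyx.trans ?_
          exact mul_le_mul_of_nonneg_right he1.le hx.le
      _ ≤ 256 * B * x := by
          have : 0 < B * x := by positivity
          nlinarith

end Pool.Agent.TH644.KD
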