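import Pool.Agent.TH644.KD.Few

/-!
# The inequality for a single piece
-/

set_option autoImplicit false
set_option linter.unusedSectionVars false

namespace Pool.Agent.TH644.KD

open Finset
open scoped Classical
open Pool.Agent.TH965.Emb

variable {V : Type} [Fintype V]

lemma mem_bE_self {S : SimpleGraph V} {Y : Finset V} {e : Sym2 V} :
    e ∈ bE S Y Y ↔ e ∈ tE S Y ∧ ∃ v ∈ e, v ∉ Y := mem_bE

lemma tE_card_split (S : SimpleGraph V) (Y : Finset V) :
    (tE S Y).card = (iE S Y).card + (bE S Y Y).card := by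
  have h1 : iE S Y = (tE S Y).filter (fun e => ¬ ∃ v ∈ e, v ∉ Y) := by
    ext e
    rw [Finset.mem_filter]
    constructor
    · intro h
      refine ⟨iE_subset_tE S Y h, ?_⟩
      rintro ⟨v, hv, hvY⟩
      exact hvY ((mem_iE.mp h).2 v hv)
    · rintro ⟨h, h2⟩
      rw [mem_iE]
      refine ⟨(mem_tE.mp h).1, ?_⟩
      intro y hy
      by_contra hyY
      exact h2 ⟨y, hy, hyY⟩
  rw [h1]
  unfold bE
  rw [add_comm, Finset.card_filter_add_card_filter_not]

lemma deg_sum_le (S : SimpleGraph V) (Y : Finset V) :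
    ∑ y ∈ Y, (tE S {y}).card ≤ 2 * (iE S Y).card + (bE S Y Y).card := by
  have h1 : ∀ y ∈ Y, (tE S {y}).card = ∑ e ∈ tE S Y, if y ∈ e then 1 else 0 := by
    intro y hy
    rw [← Finset.card_filter]
    congr 1
    ext e
    rw [Finset.mem_filter, mem_tE, mem_tE]
    constructor
    · rintro ⟨h2, y', hy', h3⟩
      rw [Finset.mem_singleton] at hy'
      subst hy'
      exact ⟨⟨h2, _, hy, h3⟩, h3⟩
    · rintro ⟨⟨h2, -⟩, h3⟩
      exact ⟨h2, y, Finset.mem_singleton_self y, h3⟩
  rw [Finset.sum_congr rfl h1, Finset.sum_comm]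
  have h2 : tE S Y = (iE S Y) ∪ (bE S Y Y) := by
    ext e
    rw [Finset.mem_union, mem_bE]
    constructor
    · intro h
      by_cases h3 : ∃ v ∈ e, v ∉ Y
      · exact Or.inr ⟨h, h3⟩
      · left
        rw [mem_iE]
        refine ⟨(mem_tE.mp h).1, ?_⟩
        intro y hy
        by_contra hyY
        exact h3 ⟨y, hy, hyY⟩
    · rintro (h | h)
      · exact iE_subset_tE S Y h
      · exact h.1
  have h3 : Disjoint (iE S Y) (bE S Y Y) := by
    rw [Finset.disjoint_left]
    intro e he he'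
    obtain ⟨-, v, hv, hvY⟩ := mem_bE.mp he'
    exact hvY ((mem_iE.mp he).2 v hv)
  rw [h2, Finset.sum_union h3]
  have hb : ∀ e ∈ S.edgeSet, (∑ y ∈ Y, if y ∈ e then 1 else 0) ≤ 2 := by
    intro e he
    rw [← Finset.card_filter]
    induction e using Sym2.ind with
    | _ a b =>
      calc (Y.filter (fun y => y ∈ s(a, b))).card ≤ ({a, b} : Finset V).card := by
            apply Finset.card_le_card
            intro y hy
            have := (Finset.mem_filter.mp hy).2
            rw [Sym2.mem_iff] at this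
            rw [Finset.mem_insert, Finset.mem_singleton]
            exact this
        _ ≤ 2 := Finset.card_le_two
  have hc : ∀ e ∈ bE S Y Y, (∑ y ∈ Y, if y ∈ e then 1 else 0) ≤ 1 := by
    intro e he
    obtain ⟨-, v, hv, hvY⟩ := mem_bE.mp he
    rw [← Finset.card_filter, Finset.card_le_one]
    intro a ha b hb
    rw [Finset.mem_filter] at ha hb
    by_contra hab
    have h4 := (Sym2.mem_and_mem_iff hab).mp ⟨ha.2, hb.2⟩
    rw [h4, Sym2.mem_iff] at hv
    rcases hv with rfl | rfl
    · exact hvY ha.1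
    · exact hvY hb.1
  calc _ ≤ ∑ e ∈ iE S Y, 2 + ∑ e ∈ bE S Y Y, 1 := by
        apply add_le_add
        · exact Finset.sum_le_sum (fun e he => hb e (mem_iE.mp he).1)
        · exact Finset.sum_le_sum hc
    _ = _ := by rw [Finset.sum_const, Finset.sum_const, smul_eq_mul, smul_eq_mul]; ring

/-- If all vertices of `Y` have degree at least two, then few edges leave `Y`. -/
lemma out_le (S : SimpleGraph V) (Y : Finset V) (hd : ∀ y ∈ Y, 2 ≤ (tE S {y}).card) :
    (bE S Y Y).card + 2 * Y.card ≤ 2 * (tE S Y).card := by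
  have h1 := deg_sum_le S Y
  have h2 := tE_card_split S Y
  have h3 : Y.card * 2 ≤ ∑ y ∈ Y, (tE S {y}).card := by
    rw [← smul_eq_mul, ← Finset.sum_const]
    exact Finset.sum_le_sum hd
  omega

/-- The inequality for a piece. Here `l = log (n ρ)`, `r = ρ / e`, `E = exp (log n / (2 l))`. -/
lemma piece_le (S : SimpleGraph V) (Y₂ Y' : Finset V) (hY' : Y' ⊆ Y₂)
    (n : ℕ) (hn : 2 ≤ n) (ρ : ℝ) (hρ0 : 0 < ρ) (hl : 1 ≤ Real.log (n * ρ))
    (hun : (n : ℝ) ^ Y'.card * ρ ^ (tE S Y').card ≤ 1)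
    (hd : ∀ y ∈ Y', 2 ≤ (tE S {y}).card) :
    (n : ℝ) ^ Y'.card * (ρ * Real.exp (-1)) ^ (tE S Y').card
      * (Real.exp (Real.log n / (2 * Real.log (n * ρ)))) ^ (bE S Y₂ Y').card ≤ 1 := by
  have hn0 : (0 : ℝ) < n := by exact_mod_cast (by omega : 0 < n)
  have hL : 0 < Real.log n := Real.log_pos (by exact_mod_cast (by omega : 1 < n))
  set L := Real.log n with hLdef
  set l := Real.log (n * ρ) with hldef
  have hlρ : Real.log ρ = l - L := by
    rw [hldef, Real.log_mul hn0.ne' hρ0.ne']; ring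
  set a : ℝ := (Y'.card : ℝ) with ha
  set k : ℝ := ((tE S Y').card : ℝ) with hk
  set b : ℝ := ((bE S Y₂ Y').card : ℝ) with hb
  have hb0 : 0 ≤ b := Nat.cast_nonneg _
  -- number of edges leaving Y'
  have hout : b + 2 * a ≤ 2 * k := by
    have h1 := out_le S Y' hd
    have h2 : (bE S Y₂ Y').card ≤ (bE S Y' Y').card := by
      apply Finset.card_le_card
      intro e he
      obtain ⟨h3, v, hv, hvY⟩ := mem_bE.mp he
      exact mem_bE.mpr ⟨h3, v, hv, fun h => hvY (hY' h)⟩
    have h3 : (bE S Y₂ Y').card + 2 * Y'.card ≤ 2 * (tE S Y').card := by omega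
    rw [ha, hk, hb]
    exact_mod_cast h3
  have hx : 0 ≤ k - a := by linarith
  -- logarithmic form
  have hunl : a * L + k * (l - L) ≤ 0 := by
    have h := Real.log_le_log (by positivity) hun
    rw [Real.log_one, Real.log_mul (by positivity) (by positivity), Real.log_pow, Real.log_pow,
      hlρ] at h
    exact h
  have hkl : k * l ≤ (k - a) * L := by nlinarith
  have hl0 : 0 < l := by linarith
  have hgoal : a * L + k * (l - L - 1) + b * (L / (2 * l)) ≤ 0 := by
    have h1 : b * (L / (2 * l)) ≤ (k - a) * L / l := by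
      rw [← mul_div_assoc, div_le_div_iff₀ (by positivity) hl0]
      nlinarith [mul_nonneg hL.le hl0.le]
    have h2 : k * (l - 1) ≤ (k - a) * L / l * (l - 1) := by
      apply mul_le_mul_of_nonneg_right _ (by linarith)
      rw [le_div_iff₀ hl0]
      exact hkl
    have h3 : (k - a) * L / l * (l - 1) + (k - a) * L / l = (k - a) * L := by
      field_simp
      ring
    nlinarith
  have hpos : 0 < (n : ℝ) ^ Y'.card * (ρ * Real.exp (-1)) ^ (tE S Y').card
      * (Real.exp (L / (2 * l))) ^ (bE S Y₂ Y').card := by positivity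
  rw [← Real.log_nonpos_iff hpos.le]
  rw [Real.log_mul (by positivity) (by positivity), Real.log_mul (by positivity) (by positivity),
    Real.log_pow, Real.log_pow, Real.log_pow, Real.log_mul (by positivity) (by positivity),
    Real.log_exp, Real.log_exp, hlρ]
  have : a * L + k * (l - L + -1) + b * (L / (2 * l)) = a * L + k * (l - L - 1) + b * (L / (2 * l)) := by
    ring
  linarith

/-- `r E ≤ 1`. -/
lemma rE_le (n : ℕ) (hn : 2 ≤ n) (ρ : ℝ) (hρ0 : 0 < ρ) (hρ1 : ρ ≤ 1)
    (hl : 1 ≤ Real.log (n * ρ)) :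
    ρ * Real.exp (-1) * Real.exp (Real.log n / (2 * Real.log (n * ρ))) ≤ 1 := by
  have hn0 : (0 : ℝ) < n := by exact_mod_cast (by omega : 0 < n)
  have hL : 0 < Real.log n := Real.log_pos (by exact_mod_cast (by omega : 1 < n))
  set L := Real.log n with hLdef
  set l := Real.log (n * ρ) with hldef
  have hlρ : Real.log ρ = l - L := by
    rw [hldef, Real.log_mul hn0.ne' hρ0.ne']; ring
  have hlL : l ≤ L := by
    have := Real.log_nonpos hρ0.le hρ1
    linarith
  have hl0 : 0 < l := by linarith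
  have h1 : ρ = Real.exp (l - L) := by rw [← hlρ, Real.exp_log hρ0]
  rw [h1, ← Real.exp_add, ← Real.exp_add, Real.exp_le_one_iff]
  have h2 : L / (2 * l) ≤ L - l + 1 := by
    rw [div_le_iff₀ (by positivity)]
    nlinarith [mul_nonneg (sub_nonneg.mpr hlL) (sub_nonneg.mpr hl)]
  linarith

end Pool.Agent.TH644.KD
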